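import Pool.Agent.Shared.NonWief.Master
import Pool.Agent.Shared.PNTAP

/-!
Positive lower density of the primes whose Fermat quotient in base two (three) avoids a given
rational number.
-/

set_option autoImplicit false

namespace Pool.Agent.NW

open Finset Filter Topology Pool.Agent.Shared.PNTAP

noncomputable section

/-- thresholds of the layers of the cost -/
def thr (κ : ℝ) (N i : ℕ) : ℝ := max ((2 * N - i) / (2 * κ)) ((4 * N - i) / (2 + 2 * κ))

/-- number of layers above `p` -/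
def lay (κ : ℝ) (N p : ℕ) : ℕ := #{i ∈ range (2 * N) | (p:ℝ) ≤ thr κ N i}

lemma cost_le_lay {κ : ℝ} (hκ : 0 < κ) (hκ1 : κ ≤ 1) {N p m : ℕ} (hm : κ * p ≤ m + 1) :
    cost N p m ≤ lay κ N p := by
  rw [lay, ← card_range (cost N p m)]
  refine card_le_card fun i hi => ?_
  rw [mem_range, cost, lt_min_iff] at hi
  refine mem_filter.2 ⟨mem_range.2 hi.1, ?_⟩
  rcases le_total N p with h | h
  · refine le_max_of_le_left ?_
    have : (i:ℝ) + 2 * (m + 1) ≤ 2 * N := by exact_mod_cast (by omega : i + 2 * (m + 1) ≤ 2 * N)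
    rw [le_div_iff₀ (by positivity)]
    linarith
  · rcases le_total N (m + 1) with h2 | h2
    · refine le_max_of_le_right ?_
      have h3 : (i:ℝ) + 2 * p ≤ 2 * N := by exact_mod_cast (by omega : i + 2 * p ≤ 2 * N)
      have h4 : (p:ℝ) ≤ N := by exact_mod_cast h
      have h5 := mul_le_of_le_one_left (Nat.cast_nonneg (α := ℝ) p) hκ1
      rw [le_div_iff₀ (by positivity)]
      linarith
    · refine le_max_of_le_right ?_
      have : (i:ℝ) + 2 * p + 2 * (m + 1) ≤ 4 * N := by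
        exact_mod_cast (by omega : i + 2 * p + 2 * (m + 1) ≤ 4 * N)
      rw [le_div_iff₀ (by positivity)]
      linarith

lemma sum_pos_part {β : ℝ} (hβ : 0 < β) (x : ℝ) (M : ℕ) :
    ∑ i ∈ range M, max 0 (x - β * i) + (max 0 (x + β - β * M)) ^ 2 / (2 * β) ≤
      (max 0 (x + β)) ^ 2 / (2 * β) := by
  induction M with
  | zero => simp
  | succ M ih =>
    rw [sum_range_succ]
    refine le_trans ?_ ih
    rw [add_assoc, add_le_add_iff_left, Nat.cast_succ,
      show x + β - β * (M + 1) = x - β * M by ring,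
      show x + β - β * M = x - β * M + β by ring]
    generalize x - β * M = y
    rcases le_total 0 y with h | h
    · rw [max_eq_right h, max_eq_right (by linarith), le_div_iff₀ (by positivity), add_mul,
        div_mul_cancel₀ _ (by positivity)]
      nlinarith
    · rw [max_eq_left h]
      simp only [ne_eq, OfNat.ofNat_ne_zero, not_false_eq_true, zero_pow, zero_div, add_zero]
      positivity

lemma thr_sum {κ : ℝ} (hκ : 0 < κ) (hκ1 : κ ≤ 1) : ∃ C, ∀ N : ℕ, 0 < N →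
    ∑ i ∈ range (2 * N), thr κ N i ≤
      (3 / (1 + κ) + (1 - κ) ^ 2 / (κ * (1 + κ))) * (N:ℝ) ^ 2 + C * N := by
  set β := 1 / (2 * κ * (1 + κ)) with hβ
  set y := (1 - κ) / (κ * (1 + κ)) with hy
  have hβ0 : 0 < β := by positivity
  have hy0 : 0 ≤ y := div_nonneg (by linarith) (by positivity)
  refine ⟨1 / (2 + 2 * κ) + y + β / 2, fun N hN => ?_⟩
  have hN' : (1:ℝ) ≤ N := by exact_mod_cast hN
  have e : ∀ i : ℕ, thr κ N i = (4 * N - i) / (2 + 2 * κ) + max 0 (y * N - β * i) := by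
    intro i
    rw [thr, add_max, add_zero, max_comm]
    congr 1
    rw [hy, hβ]
    field_simp
    ring
  have h1 := sum_pos_part hβ0 (y * N) (2 * N)
  have h2 : 0 ≤ (max 0 (y * N + β - β * (2 * N : ℕ))) ^ 2 / (2 * β) := by positivity
  rw [max_eq_right (by positivity : 0 ≤ y * N + β)] at h1
  have h3 : (y * N + β) ^ 2 / (2 * β) =
      (1 - κ) ^ 2 / (κ * (1 + κ)) * (N:ℝ) ^ 2 + y * N + β / 2 := by
    rw [hy, hβ]; field_simp; ring
  have h4 : ∑ i ∈ range (2 * N), ((4 * N - i) / (2 + 2 * κ) : ℝ) =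
      3 / (1 + κ) * (N:ℝ) ^ 2 + 1 / (2 + 2 * κ) * N := by
    have h5 : ((∑ i ∈ range (2 * N), i : ℕ) : ℝ) * 2 = 2 * N * (2 * N - 1) := by
      have := Finset.sum_range_id_mul_two (2 * N)
      rw [← Nat.cast_ofNat (R := ℝ) (n := 2), ← Nat.cast_mul, this, Nat.cast_mul,
        Nat.cast_pred (by omega)]
      push_cast; ring
    rw [← sum_div, sum_sub_distrib, sum_const, card_range, ← Nat.cast_sum, nsmul_eq_mul,
      show ((∑ i ∈ range (2 * N), i : ℕ) : ℝ) = N * (2 * N - 1) by linarith]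
    push_cast
    field_simp
    ring
  simp_rw [e]
  rw [sum_add_distrib, h4]
  nlinarith

lemma thetaAP_mono {q : ℕ} (r : ZMod q) {x y : ℝ} (h : x ≤ y) : thetaAP r x ≤ thetaAP r y :=
  sum_le_sum_of_subset_of_nonneg
    (filter_subset_filter _ (Icc_subset_Icc_right (Nat.floor_mono h)))
    fun p _ _ => Real.log_natCast_nonneg p

lemma theta_lin {q : ℕ} [NeZero q] {r : ZMod q} (hr : IsUnit r) {η : ℝ}
    (hη : (q.totient : ℝ)⁻¹ < η) : ∃ C, ∀ x : ℝ, 0 ≤ x → thetaAP r x ≤ η * x + C := by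
  obtain ⟨x0, h0⟩ := eventually_atTop.1
    (((theta_ap hr).eventually (gt_mem_nhds hη)).and (eventually_gt_atTop 0))
  have hη0 : 0 ≤ η := le_trans (by positivity) hη.le
  have hC : 0 ≤ thetaAP r x0 := sum_nonneg fun p _ => Real.log_natCast_nonneg p
  refine ⟨thetaAP r x0, fun x hx => ?_⟩
  rcases le_total x0 x with h | h
  · have := (div_lt_iff₀ (h0 x h).2).1 (h0 x h).1
    linarith
  · have := thetaAP_mono r h
    nlinarith

lemma class_sum {q : ℕ} [NeZero q] {r : ZMod q} (hr : IsUnit r) {η κ : ℝ}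
    (hη : (q.totient : ℝ)⁻¹ < η) (hκ : 0 < κ) (hκ1 : κ ≤ 1) : ∃ C, ∀ N T : ℕ, 0 < N →
    ∑ p ∈ Icc 1 T with p.Prime, (if (p : ZMod q) = r then (lay κ N p : ℝ) else 0) * Real.log p ≤
      η * (3 / (1 + κ) + (1 - κ) ^ 2 / (κ * (1 + κ))) * (N:ℝ) ^ 2 + C * N := by
  obtain ⟨C, hC⟩ := theta_lin hr hη
  obtain ⟨D, hD⟩ := thr_sum hκ hκ1
  have hη0 : 0 ≤ η := le_trans (by positivity) hη.le
  refine ⟨η * D + 2 * C, fun N T hN => ?_⟩
  have h1 : ∑ p ∈ Icc 1 T with p.Prime,
      (if (p : ZMod q) = r then (lay κ N p : ℝ) else 0) * Real.log p =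
      ∑ i ∈ range (2 * N), ∑ p ∈ Icc 1 T with Nat.Prime p ∧ (p : ZMod q) = r ∧ (p:ℝ) ≤ thr κ N i,
        Real.log p := by
    simp only [sum_filter]
    rw [sum_comm]
    refine sum_congr rfl fun p _ => ?_
    by_cases h1 : p.Prime
    · by_cases h2 : (p : ZMod q) = r
      · simp only [h1, h2, true_and, if_true, lay]
        rw [← sum_filter, sum_const, nsmul_eq_mul]
      · simp [h2]
    · simp [h1]
  have h2 : ∀ i ∈ range (2 * N),
      ∑ p ∈ Icc 1 T with Nat.Prime p ∧ (p : ZMod q) = r ∧ (p:ℝ) ≤ thr κ N i, Real.log p ≤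
        η * thr κ N i + C := by
    intro i hi
    have h3 : (i:ℝ) ≤ 2 * N := by exact_mod_cast (mem_range.1 hi).le
    have h0 : 0 ≤ thr κ N i := le_max_of_le_left (div_nonneg (by linarith) (by positivity))
    refine le_trans ?_ (hC _ h0)
    refine sum_le_sum_of_subset_of_nonneg (fun p hp => ?_) fun p _ _ => Real.log_natCast_nonneg p
    rw [mem_filter, mem_Icc] at hp ⊢
    exact ⟨⟨hp.1.1, Nat.le_floor hp.2.2.2⟩, hp.2.1, hp.2.2.1⟩
  rw [h1]
  refine (sum_le_sum h2).trans ?_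
  rw [sum_add_distrib, ← mul_sum, sum_const, card_range, nsmul_eq_mul]
  have := mul_le_mul_of_nonneg_left (hD N hN) hη0
  push_cast
  linarith

lemma ev_small (q : ℕ) (A : ℝ) {ε : ℝ} (hε : 0 < ε) : ∀ᶠ N : ℕ in atTop,
    A + 6 * Real.log N + √(q * (2 * N) + 1 : ℕ) * (2 * Real.log (q * (2 * N) + 1 : ℕ)) ≤ ε * N := by
  have hQ : (0:ℝ) < 2 * q + 1 := by positivity
  have h0 := (isLittleO_log_rpow_atTop (r := 1 / 2) (by norm_num)).bound
    (c := ε / (6 * (2 * q + 1))) (by positivity)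
  have ht : Tendsto (fun N : ℕ => ((2 * q + 1) * N : ℝ)) atTop atTop :=
    tendsto_natCast_atTop_atTop.const_mul_atTop hQ
  have h1 := tendsto_natCast_atTop_atTop.eventually
    (Real.isLittleO_log_id_atTop.bound (c := ε / 18) (by positivity))
  filter_upwards [ht.eventually h0, h1, eventually_ge_atTop 1,
    tendsto_natCast_atTop_atTop.eventually (eventually_ge_atTop (3 * A / ε))] with N h2 h3 h4 h5
  have hN : (1:ℝ) ≤ N := by exact_mod_cast h4
  set x : ℝ := (2 * q + 1) * N with hx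
  have hx0 : 0 ≤ x := by positivity
  have hT : ((q * (2 * N) + 1 : ℕ) : ℝ) ≤ x := by rw [hx]; push_cast; nlinarith
  have hT1 : (1:ℝ) ≤ ((q * (2 * N) + 1 : ℕ) : ℝ) := by exact_mod_cast Nat.le_add_left 1 _
  rw [← Real.sqrt_eq_rpow, Real.norm_eq_abs, Real.norm_eq_abs,
    abs_of_nonneg (Real.sqrt_nonneg x)] at h2
  rw [id, Real.norm_eq_abs, Real.norm_eq_abs, Nat.abs_cast] at h3
  have h6 : √(q * (2 * N) + 1 : ℕ) * (2 * Real.log (q * (2 * N) + 1 : ℕ)) ≤
      √x * (2 * (ε / (6 * (2 * q + 1)) * √x)) :=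
    mul_le_mul (Real.sqrt_le_sqrt hT) (mul_le_mul_of_nonneg_left
      ((Real.log_le_log (by linarith) hT).trans ((le_abs_self _).trans h2)) zero_le_two)
      (mul_nonneg zero_le_two (Real.log_nonneg hT1)) (Real.sqrt_nonneg x)
  have h7 : √x * (2 * (ε / (6 * (2 * q + 1)) * √x)) = ε / 3 * N := by
    rw [show √x * (2 * (ε / (6 * (2 * q + 1)) * √x)) = ε / (3 * (2 * q + 1)) * (√x * √x) by
      field_simp; ring, Real.mul_self_sqrt hx0, hx]
    field_simp
  rw [div_le_iff₀ hε] at h5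
  have h8 := (le_abs_self _).trans h3
  linarith

lemma thb_mono (Bad : ℕ → Prop) {x y : ℕ} (h : x ≤ y) : thb Bad x ≤ thb Bad y := by
  classical
  exact sum_le_sum_of_subset_of_nonneg (filter_subset_filter _ (Icc_subset_Icc_right h))
    fun p _ _ => Real.log_natCast_nonneg p

open Classical in
lemma thb_le (Bad : ℕ → Prop) (x : ℕ) :
    thb Bad x ≤ #{p ∈ Icc 1 x | p.Prime ∧ Bad p} * Real.log x := by
  rw [thb, ← nsmul_eq_mul]
  refine sum_le_card_nsmul _ _ _ fun p hp => ?_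
  have := mem_Icc.1 (mem_filter.1 hp).1
  exact Real.log_le_log (by exact_mod_cast this.1) (by exact_mod_cast this.2)

/-- from the master inequality to a linear lower bound -/
theorem dens {q : ℕ} [hq : Fact q.Prime] (c : ℤ) {d : ℤ} (hd : d ≠ 0) (Bad : ℕ → Prop)
    (hg : ∀ (p : ℕ) [Fact p.Prime], p ≠ q → ∀ m < p, p ∣ q * m + 1 → ¬ Bad p →
      ‖fr ℚ_[p] c d m‖ ≤ (p:ℝ)⁻¹) {τ C δ : ℝ} (hδ : 0 < δ)
    (hτ : τ + 2 * δ ≤ Real.log 4 + 3 / 4 * (q / (q - 1) * Real.log q))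
    (W : ℕ → ℕ → ℝ) (hW0 : ∀ N p, 0 ≤ W N p)
    (hW : ∀ N p, p.Prime → p ≠ q → ∀ m < p, p ∣ q * m + 1 → (cost N p m : ℝ) ≤ W N p)
    (hS : ∀ N T : ℕ, 0 < N →
      ∑ p ∈ Icc 1 T with p.Prime, W N p * Real.log p ≤ τ * (N:ℝ) ^ 2 + C * N) :
    ∀ᶠ x : ℕ in atTop, δ / (18 * q) * x ≤ thb Bad x := by
  set L : ℝ := q / (q - 1) * Real.log q with hL
  have hq0 := hq.out.pos
  have h1 : ∀ᶠ N : ℕ in atTop, (mm ℚ q 1 c d N).det ≠ 0 →
      δ * N ≤ thb Bad (q * (2 * N) + 1) := by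
    filter_upwards [ev_small q (Real.log (16 * (|(d:ℝ)| * q + |(c:ℝ)|)) + 2 * Real.log q + C +
      Real.log 4 + 5 / 4 * L) hδ, eventually_gt_atTop 0] with N h2 hN hx
    have hN' : (0:ℝ) < N := by exact_mod_cast hN
    have h3 := master c hd Bad hg hN (W N) (hW0 N) (hW N) hx
    have h4 := hS N (q * (2 * N) + 1) hN
    have h5 := mul_le_mul_of_nonneg_left h2 hN'.le
    have h6 := mul_le_mul_of_nonneg_right hτ (sq_nonneg (N:ℝ))
    rw [← hL] at h3
    refine le_of_mul_le_mul_left ?_ hN'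
    nlinarith
  obtain ⟨N0, hN0⟩ := eventually_atTop.1 h1
  filter_upwards [eventually_ge_atTop (9 * q * (N0 + d.natAbs + 4 * q + 1))] with x hx
  set y := x / (9 * q) with hy
  have hy1 : N0 + d.natAbs + 4 * q + 1 ≤ y :=
    (Nat.le_div_iff_mul_le (by omega)).2 (by rwa [mul_comm])
  have hy2 : 9 * q * y ≤ x := Nat.mul_div_le x _
  have hy3 : x < 9 * q * (y + 1) := Nat.lt_mul_div_succ x (by omega)
  obtain ⟨p, hp, h2, h3⟩ := Nat.exists_prime_lt_and_le_two_mul y (by omega)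
  have := Fact.mk hp
  have hpq : ¬ p ∣ q := Nat.not_dvd_of_pos_of_lt hq0 (by omega)
  obtain ⟨m, hm, hd'⟩ := exists_m 1 hpq
  have h4 : q * (2 * (m + p + 1)) ≤ q * (4 * p) := Nat.mul_le_mul_left q (by omega)
  have h5 := det_ne_zero hq0 one_pos hpq hm hd' c (d := d) (fun h => by
    have := Nat.le_of_dvd (Int.natAbs_pos.2 hd) (Int.natCast_dvd.1 h)
    omega) (by
      have h8 : (4 * q + 2) * p ≤ p * p := Nat.mul_le_mul_right p (by omega)
      nlinarith)
  rw [← det_cast] at h5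
  have h6 := (hN0 (m + p + 1) (by omega) fun h => h5 (by rw [h]; simp)).trans
    (thb_mono Bad (y := x) (by nlinarith))
  refine le_trans ?_ h6
  have h7 : (x:ℝ) ≤ 18 * q * (m + p + 1 : ℕ) := by
    exact_mod_cast (by nlinarith : x ≤ 18 * q * (m + p + 1))
  have hq' : (0:ℝ) < q := by exact_mod_cast hq0
  rw [div_mul_eq_mul_div, div_le_iff₀ (by positivity)]
  nlinarith

/-- base two -/
theorem dens_two (u : ℤ) {v : ℤ} (hv : v ≠ 0) : ∀ᶠ x : ℕ in atTop,
    1 / 3600 * x ≤ thb (fun p => ¬ (p:ℤ) ∣ v * fq 2 p - u) x := by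
  obtain ⟨C, hC⟩ := class_sum (q := 1) (r := 1) isUnit_one (η := 1.03) (κ := 1 / 2)
    (by norm_num) (by norm_num) (by norm_num)
  have := dens (q := 2) (2 * u) hv (fun p => ¬ (p:ℤ) ∣ v * fq 2 p - u)
    (fun p _ hp m hm hd h => good_two (fun h2 => hp
      ((Nat.prime_dvd_prime_iff_eq Fact.out Nat.prime_two).1 h2)) hm hd (not_not.1 h))
    (δ := 1 / 100) (by norm_num) ?_ _ (fun N p => by split_ifs <;> positivity) ?_ hC
  · convert this using 3; norm_num
  · rw [show (4:ℝ) = 2 ^ 2 by norm_num, Real.log_pow]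
    have := Real.log_two_gt_d9
    norm_num
    linarith
  · intro N p hp h2 m hm hd
    rw [if_pos (Subsingleton.elim _ _), Nat.cast_le]
    refine cost_le_lay (by norm_num) (by norm_num) ?_
    have : (p:ℝ) ≤ 2 * m + 1 := by exact_mod_cast Nat.le_of_dvd (by omega) hd
    linarith

instance : Fact (Nat.Prime 3) := ⟨Nat.prime_three⟩

/-- base three -/
theorem dens_three (u : ℤ) {v : ℤ} (hv : v ≠ 0) : ∀ᶠ x : ℕ in atTop,
    1 / 5400 * x ≤ thb (fun p => p = 2 ∨ ¬ (p:ℤ) ∣ v * fq 3 p - u) x := by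
  have ht : ((Nat.totient 3 : ℕ) : ℝ)⁻¹ < 0.505 := by
    rw [Nat.totient_prime Nat.prime_three]; norm_num
  obtain ⟨C, hC⟩ := class_sum (q := 3) (r := 1) isUnit_one (η := 0.505) (κ := 1 / 3)
    ht (by norm_num) (by norm_num)
  obtain ⟨D, hD⟩ := class_sum (q := 3) (r := 2) (by decide) (η := 0.505) (κ := 2 / 3)
    ht (by norm_num) (by norm_num)
  have := dens (q := 3) (3 * u) (mul_ne_zero two_ne_zero hv)
    (fun p => p = 2 ∨ ¬ (p:ℤ) ∣ v * fq 3 p - u)
    (fun p _ hp m hm hd h => good_three (not_or.1 h).1 (fun h2 => hp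
      ((Nat.prime_dvd_prime_iff_eq Fact.out Nat.prime_three).1 h2)) hm hd
      (not_not.1 (not_or.1 h).2))
    (δ := 1 / 100) (τ := 0.505 * 5.15) (C := C + D) (by norm_num) ?_
    (fun N p => (if (p : ZMod 3) = 1 then (lay (1 / 3) N p : ℝ) else 0) +
      if (p : ZMod 3) = 2 then (lay (2 / 3) N p : ℝ) else 0)
    (fun N p => by split_ifs <;> positivity) ?_ ?_
  · convert this using 3; norm_num
  · rw [show (4:ℝ) = 2 ^ 2 by norm_num, Real.log_pow]
    have := Real.log_two_gt_d9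
    have := Real.log_three_gt_d9
    norm_num
    linarith
  · intro N p hp h3 m hm hd
    have h0 : p % 3 ≠ 0 := fun h => h3
      ((Nat.prime_dvd_prime_iff_eq Nat.prime_three hp).1 (Nat.dvd_of_mod_eq_zero h)).symm
    rcases (by omega : p % 3 = 1 ∨ p % 3 = 2) with h | h
    · have e : (p : ZMod 3) = 1 := by rw [← ZMod.natCast_mod, h]; rfl
      rw [if_pos e, if_neg (by rw [e]; decide), add_zero, Nat.cast_le]
      refine cost_le_lay (by norm_num) (by norm_num) ?_
      have : (p:ℝ) ≤ 3 * m + 1 := by exact_mod_cast Nat.le_of_dvd (by omega) hd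
      linarith
    · have e : (p : ZMod 3) = 2 := by rw [← ZMod.natCast_mod, h]; rfl
      rw [if_pos e, if_neg (by rw [e]; decide), zero_add, Nat.cast_le]
      refine cost_le_lay (by norm_num) (by norm_num) ?_
      obtain ⟨k, hk⟩ := hd
      have hk2 : 2 ≤ k := by
        by_contra h4
        rcases (by omega : k = 0 ∨ k = 1) with rfl | rfl <;> omega
      have : (p:ℝ) * 2 ≤ 3 * m + 1 := by
        exact_mod_cast (by rw [hk]; exact Nat.mul_le_mul_left p hk2 : p * 2 ≤ 3 * m + 1)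
      linarith
  · intro N T hN
    simp only [add_mul, sum_add_distrib]
    have h1 := hC N T hN
    have h2 := hD N T hN
    norm_num at h1 h2 ⊢
    linarith

end

end Pool.Agent.NW
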