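import Pool.Agent.Shared.NonWief.Arch

/-!
The `q`-adic bound for a prime `q` dividing `a`.
-/

set_option autoImplicit false

namespace Pool.Agent.NW

open Finset Matrix Polynomial

noncomputable section

lemma det_sum_expand {K ι κ : Type*} [Field K] [Fintype ι] [DecidableEq ι] [Fintype κ]
    (U : ι → κ → K) (V : κ → ι → K) :
    (Matrix.of fun n j => ∑ k, U n k * V k j).det =
      ∑ φ : ι → κ, (∏ n, U n (φ n)) * (Matrix.of fun n j => V (φ n) j).det := by
  rw [← det_transpose]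
  conv_rhs => enter [2, φ]; rw [← det_transpose]
  simp only [det_apply', transpose_apply, of_apply, prod_univ_sum, mul_sum,
    Fintype.piFinset_univ]
  rw [sum_comm]
  refine sum_congr rfl fun φ _ => sum_congr rfl fun σ _ => ?_
  rw [prod_mul_distrib]; ring

/-- Newton coefficients of `n ↦ 1 / (a n + t)` without the factor `a ^ b b!` -/
def nc (K : Type*) [Field K] (a b t : ℕ) : K :=
  (-1) ^ b / ∏ i ∈ range (b + 1), ((t + a * i : ℕ) : K)

lemma nc_step (K : Type*) [Field K] [CharZero K] (a b : ℕ) {t : ℕ} (ht : 0 < t) :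
    nc K a b (t + a) = nc K a b t + (a * (b + 1) : K) * nc K a (b + 1) t := by
  have h0 : ∀ i, ((t + a * i : ℕ) : K) ≠ 0 := fun i => Nat.cast_ne_zero.2 (by omega)
  have hP : (∏ i ∈ range (b + 1), ((t + a * i : ℕ) : K)) ≠ 0 := prod_ne_zero_iff.2 fun i _ => h0 i
  have h1 : ∏ i ∈ range (b + 1 + 1), ((t + a * i : ℕ) : K) =
      (∏ i ∈ range (b + 1), ((t + a * i : ℕ) : K)) * ((t + a * (b + 1) : ℕ) : K) :=
    prod_range_succ _ _
  have h2 : ∏ i ∈ range (b + 1 + 1), ((t + a * i : ℕ) : K) =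
      (∏ i ∈ range (b + 1), ((t + a + a * i : ℕ) : K)) * (t : K) := by
    rw [prod_range_succ']
    congr 1
    refine prod_congr rfl fun i _ => ?_
    congr 1; ring
  have ht' : (t : K) ≠ 0 := Nat.cast_ne_zero.2 ht.ne'
  have h3 : ∏ i ∈ range (b + 1), ((t + a + a * i : ℕ) : K) =
      (∏ i ∈ range (b + 1), ((t + a * i : ℕ) : K)) * ((t + a * (b + 1) : ℕ) : K) / t := by
    rw [← h1, h2]; field_simp
  have h4 := h0 (b + 1)
  rw [nc, nc, nc, h3, h1]
  field_simp
  push_cast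
  ring

lemma newton (K : Type*) [Field K] [CharZero K] (a n : ℕ) : ∀ {t : ℕ}, 0 < t →
    (((a * n + t : ℕ) : K))⁻¹ =
      ∑ b ∈ range (n + 1), (n.choose b : K) * ((a ^ b * b.factorial : K) * nc K a b t) := by
  induction n with
  | zero => intro t _; simp [nc]
  | succ n ih =>
    intro t ht
    rw [Finset.sum_choose_succ_mul (fun b _ => (a ^ b * b.factorial : K) * nc K a b t) n,
      ← sum_add_distrib, show a * (n + 1) + t = a * n + (t + a) by ring, ih (by omega)]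
    refine sum_congr rfl fun b _ => ?_
    rw [nc_step K a b ht, Nat.factorial_succ]
    push_cast
    ring

lemma newton' (K : Type*) [Field K] [CharZero K] (a : ℕ) {n N t : ℕ} (hn : n < N) (ht : 0 < t) :
    (((a * n + t : ℕ) : K))⁻¹ =
      ∑ b ∈ range N, (n.choose b : K) * ((a ^ b * b.factorial : K) * nc K a b t) := by
  rw [newton K a n ht]
  refine sum_subset (range_subset_range.2 hn) fun b _ hb => ?_
  rw [Nat.choose_eq_zero_of_lt (by simpa using hb)]; simp

lemma sum_choose_range (j b : ℕ) : ∑ i ∈ range j, i.choose b = j.choose (b + 1) := by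
  induction j with
  | zero => simp
  | succ j ih => rw [sum_range_succ, ih, Nat.choose_succ_succ, add_comm]

lemma choose_eq_prod (K : Type*) [Field K] (a j b : ℕ) :
    (j.choose b : K) * (a ^ b * b.factorial : K) = ∏ i ∈ range b, (((a * j : ℕ) : K) - (a * i : ℕ)) := by
  have h := descPochhammer_eval_eq_descFactorial K j b
  rw [descPochhammer_eval_eq_prod_range, Nat.descFactorial_eq_factorial_mul_choose] at h
  have : ∏ i ∈ range b, (((a * j : ℕ) : K) - (a * i : ℕ)) =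
      ∏ i ∈ range b, ((a : K) * ((j : K) - i)) := prod_congr rfl fun i _ => by push_cast; ring
  rw [this, prod_mul_distrib, h]
  simp; ring

variable {q : ℕ} [hq : Fact q.Prime]

lemma norm_det_le {ι : Type*} [Fintype ι] [DecidableEq ι] (A : Matrix ι ι ℚ_[q]) (r c : ι → ℝ)
    (hr : ∀ i, 0 ≤ r i) (hc : ∀ i, 0 ≤ c i) (h : ∀ i j, ‖A i j‖ ≤ r i * c j) :
    ‖A.det‖ ≤ (∏ i, r i) * ∏ j, c j := by
  rw [det_apply']
  refine IsUltrametricDist.norm_sum_le_of_forall_le_of_nonneg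
    (mul_nonneg (prod_nonneg fun i _ => hr i) (prod_nonneg fun i _ => hc i)) fun σ _ => ?_
  rw [norm_mul, norm_prod]
  have h1 : ‖(((Equiv.Perm.sign σ : ℤˣ) : ℤ) : ℚ_[q])‖ ≤ 1 := Padic.norm_int_le_one _
  refine (mul_le_of_le_one_left (prod_nonneg fun i _ => norm_nonneg _) h1).trans ?_
  rw [← Equiv.prod_comp σ r, ← prod_mul_distrib]
  exact prod_le_prod (fun i _ => norm_nonneg _) fun i _ => h _ _

lemma norm_inv_nat_le {k K : ℕ} (hk : k ≤ K) :
    ‖((k : ℚ_[q]))⁻¹‖ ≤ (q : ℝ) ^ Nat.log q K := by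
  have h1 : (1:ℝ) ≤ q := by exact_mod_cast hq.out.one_le
  rcases Nat.eq_zero_or_pos k with rfl | h0
  · simp
  rw [norm_inv, Padic.norm_eq_zpow_neg_valuation (Nat.cast_ne_zero.2 h0.ne'),
    Padic.valuation_natCast, _root_.zpow_neg, inv_inv, _root_.zpow_natCast]
  exact pow_le_pow_right₀ h1 ((padicValNat_le_nat_log k).trans (Nat.log_mono_right hk))

lemma norm_inv_nat_of_not_dvd {k : ℕ} (hk : ¬ q ∣ k) : ‖((k : ℚ_[q]))⁻¹‖ = 1 := by
  rw [norm_inv, Padic.norm_natCast_eq_one_iff.2 ((Nat.Prime.coprime_iff_not_dvd hq.out).2 hk),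
    inv_one]

/-- functions on `[0,N)` that are integral polynomials in `a j` -/
def IntP (q : ℕ) [Fact q.Prime] (a N : ℕ) (φ : ℕ → ℚ_[q]) : Prop :=
  ∃ P : ℤ_[q][X], ∀ j < N, φ j = aeval ((a * j : ℕ) : ℚ_[q]) P

variable {a N : ℕ}

lemma IntP.const {c : ℚ_[q]} (hc : ‖c‖ ≤ 1) : IntP q a N fun _ => c := by
  obtain ⟨z, rfl⟩ : ∃ z : ℤ_[q], c = (z : ℚ_[q]) := ⟨⟨c, hc⟩, rfl⟩
  exact ⟨C z, fun _ _ => by rw [aeval_C]; rfl⟩

lemma IntP.add {f g : ℕ → ℚ_[q]} (hf : IntP q a N f) (hg : IntP q a N g) :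
    IntP q a N fun j => f j + g j := by
  obtain ⟨P, hP⟩ := hf
  obtain ⟨Q, hQ⟩ := hg
  exact ⟨P + Q, fun j hj => by rw [map_add, ← hP j hj, ← hQ j hj]⟩

lemma IntP.mul {f g : ℕ → ℚ_[q]} (hf : IntP q a N f) (hg : IntP q a N g) :
    IntP q a N fun j => f j * g j := by
  obtain ⟨P, hP⟩ := hf
  obtain ⟨Q, hQ⟩ := hg
  exact ⟨P * Q, fun j hj => by rw [map_mul, ← hP j hj, ← hQ j hj]⟩

lemma IntP.congr {f g : ℕ → ℚ_[q]} (hf : IntP q a N f) (h : ∀ j < N, g j = f j) :
    IntP q a N g := by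
  obtain ⟨P, hP⟩ := hf
  exact ⟨P, fun j hj => by rw [h j hj, hP j hj]⟩

lemma IntP.sum {ι : Type*} (s : Finset ι) {f : ι → ℕ → ℚ_[q]} (hf : ∀ i ∈ s, IntP q a N (f i)) :
    IntP q a N fun j => ∑ i ∈ s, f i j := by
  classical
  induction s using Finset.induction_on with
  | empty => exact (IntP.const (c := 0) (by simp)).congr (by simp)
  | insert i s hi ih =>
    exact ((hf i (mem_insert_self _ _)).add
      (ih fun k hk => hf k (mem_insert_of_mem hk))).congr fun j _ => sum_insert hi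

lemma IntP.prod {ι : Type*} (s : Finset ι) {f : ι → ℕ → ℚ_[q]} (hf : ∀ i ∈ s, IntP q a N (f i)) :
    IntP q a N fun j => ∏ i ∈ s, f i j := by
  classical
  induction s using Finset.induction_on with
  | empty => exact (IntP.const (c := 1) (by simp)).congr (by simp)
  | insert i s hi ih =>
    exact ((hf i (mem_insert_self _ _)).mul
      (ih fun k hk => hf k (mem_insert_of_mem hk))).congr fun j _ => prod_insert hi

lemma intP_choose (b : ℕ) :
    IntP q a N fun j => (j.choose b : ℚ_[q]) * (a ^ b * b.factorial : ℚ_[q]) := by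
  refine (IntP.prod (range b) (f := fun i j => ((a * j : ℕ) : ℚ_[q]) - ((a * i : ℕ) : ℚ_[q]))
    fun i _ => ⟨X - C ((a * i : ℕ) : ℤ_[q]), fun j _ => ?_⟩).congr
    fun j _ => choose_eq_prod _ a j b
  simp

lemma norm_nc (hqa : q ∣ a) {t : ℕ} (ht : ¬ q ∣ t) (b : ℕ) : ‖nc ℚ_[q] a b t‖ ≤ 1 := by
  rw [nc, div_eq_mul_inv, ← prod_inv_distrib, norm_mul, norm_prod, prod_eq_one, norm_pow]
  · simp
  · intro i _
    exact norm_inv_nat_of_not_dvd fun h => ht ((Nat.dvd_add_left (hqa.mul_right i)).1 h)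

lemma intP_inv (hqa : q ∣ a) {t : ℕ} (ht : ¬ q ∣ t) :
    IntP q a N fun j => (((a * j + t : ℕ) : ℚ_[q]))⁻¹ := by
  have ht0 : 0 < t := Nat.pos_of_ne_zero fun h => ht (h ▸ dvd_zero q)
  refine (IntP.sum (range N) fun b _ =>
    (intP_choose b).mul (IntP.const (norm_nc hqa ht b))).congr fun j hj => ?_
  rw [newton' _ a hj ht0]
  exact sum_congr rfl fun b _ => by ring

lemma intP_rho (hqa : q ∣ a) {t : ℕ} (ht : ¬ q ∣ t) :
    IntP q a N fun j => (q : ℚ_[q]) ^ Nat.log q N * (a * rho ℚ_[q] a t j) := by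
  have ht0 : 0 < t := Nat.pos_of_ne_zero fun h => ht (h ▸ dvd_zero q)
  have hq0 : (0:ℝ) < q := by exact_mod_cast hq.out.pos
  refine (IntP.sum (range N) fun b hb => (intP_choose (b + 1)).mul (IntP.const
    (c := (q : ℚ_[q]) ^ Nat.log q N * ((b + 1 : ℕ) : ℚ_[q])⁻¹ * nc ℚ_[q] a b t) ?_)).congr
    fun j hj => ?_
  · rw [norm_mul, norm_mul]
    refine mul_le_one₀ ?_ (norm_nonneg _) (norm_nc hqa ht b)
    have := norm_inv_nat_le (q := q) (k := b + 1) (K := N) (mem_range.1 hb)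
    rw [Padic.norm_p_pow, _root_.zpow_neg, _root_.zpow_natCast, inv_mul_le_iff₀ (by positivity), mul_one]
    exact this
  · rw [rho, sum_congr rfl fun i hi => newton' ℚ_[q] a ((mem_range.1 hi).trans hj) ht0, sum_comm,
      mul_sum, mul_sum]
    refine sum_congr rfl fun b _ => ?_
    rw [← sum_mul, ← Nat.cast_sum, sum_choose_range, Nat.factorial_succ]
    have : ((b + 1 : ℕ) : ℚ_[q]) ≠ 0 := Nat.cast_ne_zero.2 (by omega)
    rw [Nat.cast_mul]
    field_simp
    ring

lemma intP_nc (hqa : q ∣ a) {s : ℕ} (hs : ¬ q ∣ s) (b : ℕ) :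
    IntP q a N fun j => nc ℚ_[q] a b (a * j + s) := by
  refine ((IntP.const (c := (-1) ^ b) (by simp)).mul (IntP.prod (range (b + 1)) fun i _ =>
    intP_inv (t := s + a * i) hqa
      fun h => hs ((Nat.dvd_add_left (hqa.mul_right i)).1 h))).congr fun j _ => ?_
  rw [nc, div_eq_mul_inv, ← prod_inv_distrib]
  simp only [add_assoc]

lemma norm_det_intP (V : Fin N → ℕ → ℚ_[q]) (hV : ∀ i, IntP q a N (V i)) :
    ‖(Matrix.of fun i j : Fin N => V i j).det‖ ≤
      ∏ b ∈ range N, ‖(a ^ b * b.factorial : ℚ_[q])‖ := by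
  rcases N with _ | N
  · simp
  choose P hP using hV
  set Q : ℤ_[q][X] := ∏ j ∈ range (N + 1), (X - C ((a * j : ℕ) : ℤ_[q])) with hQ
  have hm : Q.Monic := monic_prod_of_monic _ _ fun j _ => monic_X_sub_C _
  have hd : Q.natDegree = N + 1 := by
    rw [hQ, natDegree_prod_of_monic _ _ fun j _ => monic_X_sub_C _]
    simp only [natDegree_X_sub_C, sum_const, card_range, smul_eq_mul, mul_one]
  have hne : Q ≠ 1 := fun h => by rw [h] at hd; simp at hd
  have e : (Matrix.of fun i j : Fin (N + 1) => V i j) =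
      (Matrix.of fun i b : Fin (N + 1) => (((P i %ₘ Q).coeff b : ℤ_[q]) : ℚ_[q])) *
        (diagonal (fun b : Fin (N + 1) => (a : ℚ_[q]) ^ (b : ℕ)) *
          (vandermonde fun j : Fin (N + 1) => (j : ℚ_[q]))ᵀ) := by
    ext i j
    have h0 : aeval ((a * j : ℕ) : ℚ_[q]) Q = 0 := by
      rw [hQ, map_prod]
      exact prod_eq_zero (mem_range.2 j.2) (by simp)
    rw [of_apply, hP i j j.2, ← aeval_modByMonic_eq_self_of_root h0,
      aeval_eq_sum_range' (n := N + 1) (hd ▸ natDegree_modByMonic_lt _ hm hne), Matrix.mul_apply,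
      Finset.sum_range]
    refine sum_congr rfl fun b _ => ?_
    rw [diagonal_mul, transpose_apply, vandermonde_apply, of_apply, Algebra.smul_def]
    push_cast
    rw [mul_pow]; rfl
  rw [e, det_mul, det_mul, det_transpose, det_vandermonde_id_eq_superFactorial, det_diagonal,
    norm_mul, ← Nat.prod_range_succ_factorial]
  have h1 := norm_det_le (Matrix.of fun i b : Fin (N + 1) =>
    (((P i %ₘ Q).coeff b : ℤ_[q]) : ℚ_[q])) (fun _ => 1) (fun _ => 1) (fun _ => zero_le_one)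
    (fun _ => zero_le_one) fun i j => by simpa using PadicInt.norm_le_one _
  simp only [prod_const_one, mul_one] at h1
  refine (mul_le_of_le_one_left (norm_nonneg _) h1).trans (le_of_eq ?_)
  rw [← Finset.prod_range (fun b => (a : ℚ_[q]) ^ b), Nat.cast_prod, ← prod_mul_distrib, norm_prod]

lemma sum_ge_of_injective (φ : Fin N → Fin N × Bool) (hφ : Function.Injective φ) :
    N * (N - 1) ≤ 4 * ∑ n, ((φ n).1 : ℕ) + 2 * N := by
  set ψ : Fin N → ℤ := fun n => 2 * ((φ n).1 : ℕ) + ((φ n).2.toNat : ℕ) with hψ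
  have hi : Function.Injective ψ := by
    intro n m h
    apply hφ
    simp only [hψ] at h
    have h1 := Bool.toNat_le (φ n).2
    have h2 := Bool.toNat_le (φ m).2
    refine Prod.ext (Fin.ext (by omega)) ?_
    have h3 : (φ n).2.toNat = (φ m).2.toNat := by omega
    revert h3
    cases (φ n).2 <;> cases (φ m).2 <;> simp
  have h := Finset.sum_range_le_sum (s := univ.image ψ) (c := 0) (by
    intro x hx
    obtain ⟨n, -, rfl⟩ := mem_image.1 hx
    simp only [hψ]; positivity)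
  rw [card_image_of_injective _ hi, sum_image (fun x _ y _ h => hi h), card_univ,
    Fintype.card_fin] at h
  have h2 : ∑ n, ψ n ≤ ∑ n, (2 * (((φ n).1 : ℕ) : ℤ) + 1) := sum_le_sum fun n _ => by
    have := Bool.toNat_le (φ n).2
    simp only [hψ]; omega
  have h3 := h.trans h2
  rw [sum_add_distrib (s := univ), ← mul_sum] at h3
  simp only [zero_add, sum_const, card_univ, Fintype.card_fin, nsmul_eq_mul, mul_one] at h3
  rw [← Finset.sum_range_id_mul_two]
  zify
  linarith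

/-- the `q`-adic bound -/
theorem adic (hqa : q ∣ a) {s : ℕ} (hs : ¬ q ∣ s) {f g : ℕ → ℚ_[q]} {E D ρ : ℝ} {lam : ℚ_[q]}
    (hρ0 : 0 < ρ) (hρ1 : ρ ≤ 1) (hD : 0 ≤ D) (hE : 0 ≤ E)
    (hw : ∀ b < N, ‖(a ^ b * b.factorial : ℚ_[q])‖ ≤ D * ρ ^ b)
    (hf : ∀ n < N, ‖f n‖ ≤ E) (hl0 : lam ≠ 0) (hl : ‖lam⁻¹‖ ≤ E)
    (hg : IntP q a N fun j => lam * g j) :
    ‖(mat a s f g N).det‖ ^ 4 * ρ ^ (2 * N) ≤ (E * D ^ 2) ^ (4 * N) * ρ ^ (3 * (N * (N - 1))) := by
  have hs0 : 0 < s := Nat.pos_of_ne_zero fun h => hs (h ▸ dvd_zero q)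
  set U : Fin N → Fin N × Bool → ℚ_[q] := fun n k =>
    (if k.2 then f n else -lam⁻¹) * (((n : ℕ).choose k.1 : ℚ_[q]) *
      (a ^ (k.1 : ℕ) * (k.1 : ℕ).factorial)) with hU
  set V : Fin N × Bool → ℕ → ℚ_[q] := fun k j =>
    (if k.2 then 1 else lam * g j) * nc ℚ_[q] a k.1 (a * j + s) with hV
  have e : mat a s f g N = Matrix.of fun n j : Fin N => ∑ k, U n k * V k j := by
    ext n j
    rw [mat, of_apply, of_apply, div_eq_mul_inv, add_assoc,
      newton' ℚ_[q] a n.2 (show 0 < a * j + s by omega), Finset.sum_range, mul_sum,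
      Fintype.sum_prod_type]
    refine sum_congr rfl fun b _ => ?_
    simp only [hU, hV, Fintype.sum_bool, if_true, Bool.false_eq_true, if_false]
    field_simp
    ring
  have hVi : ∀ k, IntP q a N (V k) := by
    rintro ⟨b, ε⟩
    refine IntP.mul ?_ (intP_nc hqa hs b)
    cases ε
    · simpa using hg
    · simpa using IntP.const (c := 1) (by simp)
  have hUn : ∀ n k, ‖U n k‖ ≤ E * (D * ρ ^ (k.1 : ℕ)) := by
    rintro n ⟨b, ε⟩
    simp only [hU]
    rw [norm_mul, norm_mul]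
    refine mul_le_mul ?_ ?_ (by positivity) hE
    · cases ε
      · simpa using hl
      · simpa using hf n n.2
    · exact (mul_le_of_le_one_left (norm_nonneg _)
        (IsUltrametricDist.norm_natCast_le_one _ _)).trans (hw b b.2)
  have hW : ∏ b ∈ range N, ‖(a ^ b * b.factorial : ℚ_[q])‖ ≤ D ^ N * ρ ^ ∑ b ∈ range N, b := by
    refine (prod_le_prod (fun b _ => norm_nonneg _) fun b hb => hw b (mem_range.1 hb)).trans ?_
    rw [prod_mul_distrib, prod_const, card_range, prod_pow_eq_pow_sum]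
  obtain ⟨m, hm, hle⟩ : ∃ m : ℕ, N * (N - 1) ≤ 4 * m + 2 * N ∧
      ‖(mat a s f g N).det‖ ≤ (E * D) ^ N * ρ ^ m * (D ^ N * ρ ^ ∑ b ∈ range N, b) := by
    rw [e, det_sum_expand U fun k (j : Fin N) => V k j]
    obtain ⟨φ, -, hφ⟩ := IsUltrametricDist.exists_norm_finsetSum_le_of_nonempty
      (t := (univ : Finset (Fin N → Fin N × Bool))) ⟨fun n => (n, true), mem_univ _⟩
      fun φ => (∏ n, U n (φ n)) * (Matrix.of fun n (j : Fin N) => V (φ n) j).det
    by_cases hi : Function.Injective φ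
    · refine ⟨_, sum_ge_of_injective φ hi, hφ.trans ?_⟩
      rw [norm_mul, norm_prod]
      refine mul_le_mul ?_ ((norm_det_intP _ fun n => hVi (φ n)).trans hW) (norm_nonneg _)
        (by positivity)
      refine (prod_le_prod (fun b _ => norm_nonneg _) fun n _ => hUn n (φ n)).trans (le_of_eq ?_)
      simp only [← mul_assoc]
      rw [prod_mul_distrib, prod_const, card_univ, Fintype.card_fin, prod_pow_eq_pow_sum]
    · refine ⟨N * (N - 1), by omega, hφ.trans ?_⟩
      obtain ⟨n, m, h1, h2⟩ := Function.not_injective_iff.1 hi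
      rw [det_zero_of_row_eq h2 (by ext j; simp [h1])]
      simp only [mul_zero, norm_zero]
      positivity
  have h2 : ρ ^ (4 * m + 2 * N) ≤ ρ ^ (N * (N - 1)) := pow_le_pow_of_le_one hρ0.le hρ1 hm
  calc _ ≤ ((E * D) ^ N * ρ ^ m * (D ^ N * ρ ^ ∑ b ∈ range N, b)) ^ 4 * ρ ^ (2 * N) := by gcongr
    _ = (E * D ^ 2) ^ (4 * N) * ρ ^ (2 * ((∑ b ∈ range N, b) * 2)) * ρ ^ (4 * m + 2 * N) := by
        ring
    _ ≤ (E * D ^ 2) ^ (4 * N) * ρ ^ (2 * ((∑ b ∈ range N, b) * 2)) * ρ ^ (N * (N - 1)) := by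
        gcongr
    _ = _ := by rw [Finset.sum_range_id_mul_two]; ring

/-- Legendre bound -/
lemma factorial_val (b : ℕ) :
    b ≤ (q - 1) * (padicValNat q b.factorial + Nat.log q b + 1) := by
  rcases Nat.eq_zero_or_pos b with rfl | hb
  · simp
  have h1 := sub_one_mul_padicValNat_factorial (p := q) b
  have h2 : (q.digits b).sum ≤ (q.digits b).length * (q - 1) := by
    have := List.sum_le_card_nsmul (q.digits b) (q - 1) fun x hx => by
      have := Nat.digits_lt_base hq.out.one_lt hx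
      omega
    simpa using this
  rw [Nat.length_digits q b hq.out.one_lt hb.ne'] at h2
  have h3 := Nat.digit_sum_le q b
  rw [add_assoc, mul_add, h1, mul_comm]
  omega

end

end Pool.Agent.NW
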