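import Mathlib

/-!
Loewner type determinants of harmonic sums: definitions and the archimedean bound.
-/

set_option autoImplicit false

namespace Pool.Agent.NW

open Finset Matrix Polynomial

noncomputable section

/-- `rho a s j = ∑ i < j, 1 / (a i + s)` -/
def rho (K : Type*) [Field K] (a s j : ℕ) : K := ∑ i ∈ range j, ((a * i + s : ℕ) : K)⁻¹

/-- the matrix `(f n - g j) / (a n + a j + s)` -/
def mat {K : Type*} [Field K] (a s : ℕ) (f g : ℕ → K) (N : ℕ) : Matrix (Fin N) (Fin N) K :=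
  Matrix.of fun n j => (f n - g j) / ((a * n + a * j + s : ℕ) : K)

/-- multiplying coefficients by `h` costs at most `K` times the Lipschitz norm on `[0,1]` -/
def Tame (h : ℕ → ℝ) (K : ℝ) : Prop :=
  ∀ (N : ℕ) (t : ℕ → ℝ) (B : ℝ),
    (∀ x ∈ Set.Icc (0:ℝ) 1, |∑ n ∈ range N, t n * x ^ n| ≤ B) →
    (∀ x ∈ Set.Icc (0:ℝ) 1, ∀ y ∈ Set.Icc (0:ℝ) 1,
      |∑ n ∈ range N, t n * x ^ n - ∑ n ∈ range N, t n * y ^ n| ≤ B * |x - y|) →
    ∀ x ∈ Set.Icc (0:ℝ) 1, |∑ n ∈ range N, t n * h n * x ^ n| ≤ K * B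

lemma Tame.const (c : ℝ) : Tame (fun _ => c) |c| := by
  intro N t B h1 _ x hx
  have : ∑ n ∈ range N, t n * c * x ^ n = c * ∑ n ∈ range N, t n * x ^ n := by
    rw [mul_sum]; exact sum_congr rfl fun n _ => by ring
  rw [this, abs_mul]
  exact mul_le_mul_of_nonneg_left (h1 x hx) (abs_nonneg c)

lemma Tame.add {f g : ℕ → ℝ} {K L : ℝ} (hf : Tame f K) (hg : Tame g L) :
    Tame (fun n => f n + g n) (K + L) := by
  intro N t B h1 h2 x hx
  have : ∑ n ∈ range N, t n * (f n + g n) * x ^ n =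
      ∑ n ∈ range N, t n * f n * x ^ n + ∑ n ∈ range N, t n * g n * x ^ n := by
    rw [← sum_add_distrib]; exact sum_congr rfl fun n _ => by ring
  rw [this, add_mul]
  exact (abs_add_le _ _).trans (add_le_add (hf N t B h1 h2 x hx) (hg N t B h1 h2 x hx))

lemma Tame.smul {f : ℕ → ℝ} {K : ℝ} (hf : Tame f K) (c : ℝ) :
    Tame (fun n => c * f n) (|c| * K) := by
  intro N t B h1 h2 x hx
  have : ∑ n ∈ range N, t n * (c * f n) * x ^ n = c * ∑ n ∈ range N, t n * f n * x ^ n := by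
    rw [mul_sum]; exact sum_congr rfl fun n _ => by ring
  rw [this, abs_mul, mul_assoc]
  exact mul_le_mul_of_nonneg_left (hf N t B h1 h2 x hx) (abs_nonneg c)

lemma Tame.mono {f : ℕ → ℝ} {K L : ℝ} (hf : Tame f K) (h : K ≤ L) : Tame f L := by
  intro N t B h1 h2 x hx
  have hB : 0 ≤ B := (abs_nonneg _).trans (h1 x hx)
  exact (hf N t B h1 h2 x hx).trans (mul_le_mul_of_nonneg_right h hB)

lemma inv_eq_integral (m : ℕ) : (((m + 1 : ℕ) : ℝ))⁻¹ = ∫ w in (0:ℝ)..1, w ^ m := by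
  rw [integral_pow]; simp

lemma tame_rho {a s : ℕ} (ha : 0 < a) (hs : 0 < s) : Tame (rho ℝ a s) 1 := by
  intro N t B h1 h2 x hx
  have hB : 0 ≤ B := (abs_nonneg _).trans (h1 x hx)
  obtain ⟨s, rfl⟩ : ∃ s', s = s' + 1 := ⟨s - 1, by omega⟩
  have e1 : ∑ n ∈ range N, t n * rho ℝ a (s + 1) n * x ^ n =
      ∫ w in (0:ℝ)..1, w ^ s * ∑ n ∈ range N, t n * x ^ n * ∑ i ∈ range n, (w ^ a) ^ i := by
    have : ∀ w : ℝ, w ^ s * ∑ n ∈ range N, t n * x ^ n * ∑ i ∈ range n, (w ^ a) ^ i =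
        ∑ n ∈ range N, ∑ i ∈ range n, t n * x ^ n * w ^ (a * i + s) := by
      intro w
      rw [mul_sum]
      refine sum_congr rfl fun n _ => ?_
      rw [mul_sum, mul_sum]
      refine sum_congr rfl fun i _ => ?_
      rw [← pow_mul, pow_add]; ring
    simp_rw [this]
    rw [intervalIntegral.integral_finsetSum (fun n _ => by
      apply Continuous.intervalIntegrable; fun_prop)]
    refine sum_congr rfl fun n _ => ?_
    rw [intervalIntegral.integral_finsetSum (fun n _ => by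
      apply Continuous.intervalIntegrable; fun_prop), rho, mul_sum, sum_mul]
    refine sum_congr rfl fun i _ => ?_
    rw [intervalIntegral.integral_const_mul, ← inv_eq_integral, add_assoc]; ring
  rw [e1, ← Real.norm_eq_abs]
  refine (intervalIntegral.norm_integral_le_of_norm_le_const_ae (C := B) ?_).trans (by simp)
  have hne : ∀ᵐ w : ℝ, w ≠ 1 := by
    simp [MeasureTheory.ae_iff]
  filter_upwards [hne] with w hw1 hw
  rw [Set.uIoc_of_le zero_le_one] at hw
  have hw0 : 0 ≤ w := hw.1.le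
  have hlt : w ^ a < 1 := pow_lt_one₀ hw0 (lt_of_le_of_ne hw.2 hw1) ha.ne'
  have hwa : 0 ≤ w ^ a := pow_nonneg hw0 _
  have e2 : (1 - w ^ a) * ∑ n ∈ range N, t n * x ^ n * ∑ i ∈ range n, (w ^ a) ^ i =
      ∑ n ∈ range N, t n * x ^ n - ∑ n ∈ range N, t n * (x * w ^ a) ^ n := by
    rw [mul_sum, ← sum_sub_distrib]
    refine sum_congr rfl fun n _ => ?_
    have := mul_neg_geom_sum (w ^ a) n
    rw [mul_pow]
    linear_combination (t n * x ^ n) * this
  have h3 := h2 x hx (x * w ^ a) ⟨mul_nonneg hx.1 hwa, mul_le_one₀ hx.2 hwa hlt.le⟩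
  rw [← e2, abs_mul, abs_of_pos (sub_pos.2 hlt)] at h3
  have h4 : |x - x * w ^ a| ≤ 1 - w ^ a := by
    rw [show x - x * w ^ a = x * (1 - w ^ a) by ring, abs_of_nonneg (mul_nonneg hx.1 (by linarith))]
    exact mul_le_of_le_one_left (by linarith) hx.2
  have h5 : |∑ n ∈ range N, t n * x ^ n * ∑ i ∈ range n, (w ^ a) ^ i| ≤ B := by
    refine le_of_mul_le_mul_left (h3.trans ?_) (sub_pos.2 hlt)
    rw [mul_comm (1 - w ^ a)]
    exact mul_le_mul_of_nonneg_left h4 hB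
  rw [Real.norm_eq_abs, abs_mul, abs_of_nonneg (pow_nonneg hw0 _)]
  exact (mul_le_of_le_one_left (abs_nonneg _) (pow_le_one₀ hw0 hw.2)).trans h5

/-- shifted Chebyshev polynomials -/
def ch (k : ℕ) : ℝ[X] := (Chebyshev.T ℝ k).comp (C 2 * X - C 1)

lemma lin_natDegree : (C 2 * X - C 1 : ℝ[X]).natDegree = 1 := by
  rw [sub_eq_add_neg, ← C_neg]; exact natDegree_linear two_ne_zero

lemma lin_lc : (C 2 * X - C 1 : ℝ[X]).leadingCoeff = 2 := by
  rw [sub_eq_add_neg, ← C_neg]; exact leadingCoeff_linear two_ne_zero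

lemma ch_natDegree (k : ℕ) : (ch k).natDegree = k := by
  rw [ch, natDegree_comp, lin_natDegree, Chebyshev.natDegree_T]; simp

lemma ch_coeff (k : ℕ) : (4:ℝ) ^ k / 2 ≤ (ch k).coeff k := by
  have : (ch k).coeff k = (ch k).leadingCoeff := by rw [leadingCoeff, ch_natDegree]
  rw [this, ch, leadingCoeff_comp (by rw [lin_natDegree]; norm_num), lin_lc,
    Chebyshev.leadingCoeff_T, Chebyshev.natDegree_T]
  simp only [Int.natAbs_natCast]
  rcases k with _ | k
  · norm_num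
  · simp only [Nat.add_sub_cancel]
    rw [show (4:ℝ) = 2 * 2 by norm_num, mul_pow, pow_succ]
    apply le_of_eq; ring

lemma ch_eval (k : ℕ) (x : ℝ) : (ch k).eval x = (Chebyshev.T ℝ k).eval (2 * x - 1) := by
  simp [ch, eval_comp]

lemma ch_abs (k : ℕ) {x : ℝ} (hx : x ∈ Set.Icc (0:ℝ) 1) : |(ch k).eval x| ≤ 1 := by
  rw [ch_eval]
  exact Chebyshev.abs_eval_T_real_le_one _ (abs_le.2 ⟨by linarith [hx.1], by linarith [hx.2]⟩)

lemma ch_lip (k : ℕ) {x y : ℝ} (hx : x ∈ Set.Icc (0:ℝ) 1) (hy : y ∈ Set.Icc (0:ℝ) 1) :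
    |(ch k).eval x - (ch k).eval y| ≤ 2 * (k:ℝ) ^ 2 * |x - y| := by
  rw [ch_eval, ch_eval]
  have h := Convex.norm_image_sub_le_of_norm_deriv_le (f := fun u : ℝ => (Chebyshev.T ℝ k).eval u)
    (s := Set.Icc (-1) 1) (C := (k:ℝ) ^ 2) (x := 2 * y - 1) (y := 2 * x - 1)
    (fun u _ => (Polynomial.differentiable _).differentiableAt)
    (fun u hu => by
      rw [Polynomial.deriv, Real.norm_eq_abs]
      have := Chebyshev.abs_iterate_derivative_T_real_le k 1 (abs_le.2 hu)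
      simpa [Chebyshev.derivative_T_eval_one] using this)
    (convex_Icc _ _) ⟨by linarith [hy.1], by linarith [hy.2]⟩
    ⟨by linarith [hx.1], by linarith [hx.2]⟩
  rw [Real.norm_eq_abs, Real.norm_eq_abs, show 2 * x - 1 - (2 * y - 1) = 2 * (x - y) by ring,
    abs_mul, abs_two] at h
  linarith

lemma ch_sum {N k : ℕ} (hk : k < N) (x : ℝ) :
    ∑ n ∈ range N, (ch k).coeff n * x ^ n = (ch k).eval x :=
  (eval_eq_sum_range' (by rw [ch_natDegree]; exact hk) x).symm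

lemma tame_ch {h : ℕ → ℝ} {K : ℝ} (hh : Tame h K) {N k : ℕ} (hk : k < N) {x : ℝ}
    (hx : x ∈ Set.Icc (0:ℝ) 1) :
    |∑ n ∈ range N, (ch k).coeff n * h n * x ^ n| ≤ K * (2 * (N:ℝ) ^ 2) := by
  have hN : (1:ℝ) ≤ N := by exact_mod_cast (by omega : 1 ≤ N)
  have hkN : (k:ℝ) ≤ N := by exact_mod_cast hk.le
  refine hh N _ _ (fun y hy => ?_) (fun y hy z hz => ?_) x hx
  · rw [ch_sum hk]; exact (ch_abs k hy).trans (by nlinarith)
  · rw [ch_sum hk, ch_sum hk]
    refine (ch_lip k hy hz).trans (mul_le_mul_of_nonneg_right ?_ (abs_nonneg _))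
    have : (k:ℝ) ^ 2 ≤ (N:ℝ) ^ 2 := pow_le_pow_left₀ (Nat.cast_nonneg k) hkN 2
    linarith

/-- the archimedean bound -/
theorem arch {a s : ℕ} (hs : 0 < s) {f g : ℕ → ℝ} {K : ℝ} (hf : Tame f K) (hg : Tame g K)
    (N : ℕ) :
    |(mat a s f g N).det| * 4 ^ (N * (N - 1)) ≤ (N.factorial : ℝ) * (16 * K * (N:ℝ) ^ 2) ^ N := by
  obtain ⟨s, rfl⟩ : ∃ s', s = s' + 1 := ⟨s - 1, by omega⟩
  set T : Matrix (Fin N) (Fin N) ℝ := Matrix.of fun i j => (ch j).coeff i with hT
  have hdet : T.det = ∏ i : Fin N, (ch i).coeff i := by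
    rw [hT, Matrix.det_of_isUpperTriangular (Matrix.matrixOfPolynomials_blockTriangular
      (fun i : Fin N => ch i) (fun i => (ch_natDegree i).le))]
    rfl
  have hTl : (4:ℝ) ^ (∑ i ∈ range N, i) / 2 ^ N ≤ T.det := by
    rw [hdet, ← Finset.prod_pow_eq_pow_sum, Finset.prod_range]
    have : (2:ℝ) ^ N = ∏ _i : Fin N, (2:ℝ) := by simp
    rw [this, ← prod_div_distrib]
    exact prod_le_prod (fun i _ => by positivity) fun i _ => ch_coeff i
  have hent : ∀ k l, |(Tᵀ * mat a (s + 1) f g N * T) k l| ≤ 4 * K * (N:ℝ) ^ 2 := by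
    intro k l
    have e : (Tᵀ * mat a (s + 1) f g N * T) k l = ∫ w in (0:ℝ)..1, w ^ s *
        ((∑ n ∈ range N, (ch k).coeff n * f n * (w ^ a) ^ n) *
            (∑ j ∈ range N, (ch l).coeff j * (w ^ a) ^ j) -
          (∑ n ∈ range N, (ch k).coeff n * (w ^ a) ^ n) *
            (∑ j ∈ range N, (ch l).coeff j * g j * (w ^ a) ^ j)) := by
      have : ∀ w : ℝ, w ^ s *
        ((∑ n ∈ range N, (ch k).coeff n * f n * (w ^ a) ^ n) *
            (∑ j ∈ range N, (ch l).coeff j * (w ^ a) ^ j) -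
          (∑ n ∈ range N, (ch k).coeff n * (w ^ a) ^ n) *
            (∑ j ∈ range N, (ch l).coeff j * g j * (w ^ a) ^ j)) =
          ∑ j ∈ range N, ∑ n ∈ range N,
            (ch k).coeff n * (f n - g j) * (ch l).coeff j * w ^ (a * n + a * j + s) := by
        intro w
        rw [sum_mul_sum, sum_mul_sum, ← sum_sub_distrib, mul_sum, sum_comm]
        refine sum_congr rfl fun n _ => ?_
        rw [← sum_sub_distrib, mul_sum]
        refine sum_congr rfl fun j _ => ?_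
        rw [← pow_mul, ← pow_mul, pow_add, pow_add]; ring
      simp_rw [this]
      rw [intervalIntegral.integral_finsetSum (fun n _ => by
        apply Continuous.intervalIntegrable; fun_prop), Matrix.mul_apply, Finset.sum_range]
      refine sum_congr rfl fun j _ => ?_
      rw [intervalIntegral.integral_finsetSum (fun n _ => by
        apply Continuous.intervalIntegrable; fun_prop), Matrix.mul_apply, Finset.sum_range, sum_mul]
      refine sum_congr rfl fun n _ => ?_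
      rw [intervalIntegral.integral_const_mul, ← inv_eq_integral]
      simp only [hT, mat, transpose_apply, of_apply, add_assoc]
      ring
    rw [e, ← Real.norm_eq_abs]
    refine (intervalIntegral.norm_integral_le_of_norm_le_const (C := 4 * K * (N:ℝ) ^ 2) ?_).trans
      (by simp)
    intro w hw
    rw [Set.uIoc_of_le zero_le_one] at hw
    have hw0 : 0 ≤ w := hw.1.le
    have hx : w ^ a ∈ Set.Icc (0:ℝ) 1 := ⟨pow_nonneg hw0 _, pow_le_one₀ hw0 hw.2⟩
    rw [Real.norm_eq_abs, abs_mul, abs_of_nonneg (pow_nonneg hw0 _)]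
    refine (mul_le_of_le_one_left (abs_nonneg _) (pow_le_one₀ hw0 hw.2)).trans ?_
    refine (abs_sub _ _).trans ?_
    rw [abs_mul, abs_mul, ch_sum k.2, ch_sum l.2]
    have h1 := tame_ch hf k.2 hx
    have h2 := tame_ch hg l.2 hx
    have h3 := mul_le_mul h1 (ch_abs l hx) (abs_nonneg _) ((abs_nonneg _).trans h1)
    have h4 := mul_le_mul (ch_abs k hx) h2 (abs_nonneg _) zero_le_one
    linarith
  have hle := Matrix.det_le (abv := AbsoluteValue.abs) hent
  simp only [AbsoluteValue.abs_apply, Fintype.card_fin, nsmul_eq_mul] at hle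
  rw [det_mul, det_mul, det_transpose, abs_mul, abs_mul] at hle
  have hpos : (0:ℝ) < (4:ℝ) ^ (∑ i ∈ range N, i) / 2 ^ N := by positivity
  rw [abs_of_pos (hpos.trans_le hTl)] at hle
  have h6 : (4:ℝ) ^ (N * (N - 1)) = ((4:ℝ) ^ (∑ i ∈ range N, i) / 2 ^ N) ^ 2 * 4 ^ N := by
    rw [← Finset.sum_range_id_mul_two N, pow_mul, div_pow, ← pow_mul (2:ℝ) N 2, mul_comm N 2,
      pow_mul (2:ℝ) 2 N]
    norm_num
  have h7 : ((4:ℝ) ^ (∑ i ∈ range N, i) / 2 ^ N) ^ 2 ≤ T.det ^ 2 := pow_le_pow_left₀ hpos.le hTl 2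
  calc _ ≤ |(mat a (s + 1) f g N).det| * (T.det ^ 2 * 4 ^ N) := by
        rw [h6]; gcongr
    _ = (T.det * |(mat a (s + 1) f g N).det| * T.det) * 4 ^ N := by ring
    _ ≤ ((N.factorial : ℝ) * (4 * K * (N:ℝ) ^ 2) ^ N) * 4 ^ N := by gcongr
    _ = _ := by rw [mul_assoc, ← mul_pow]; congr 2; ring

end

end Pool.Agent.NW
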