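import Pool.Agent.Shared.NonWief.Odd

/-!
Lerch's formula for the Fermat quotient and the cases of bases two and three.
-/

set_option autoImplicit false

namespace Pool.Agent.NW

open Finset

noncomputable section

variable {p : ℕ} [hp : Fact p.Prime]

lemma prod_one_sub {ι : Type*} (s : Finset ι) (x : ι → ℚ_[p]) {e : ℝ} (he0 : 0 ≤ e) (he : e ≤ 1)
    (hx : ∀ i ∈ s, ‖x i‖ ≤ e) : ‖∏ i ∈ s, (1 - x i) - (1 - ∑ i ∈ s, x i)‖ ≤ e * e := by
  classical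
  induction s using Finset.induction_on with
  | empty => simp; positivity
  | insert i s hi ih =>
    have h1 := ih fun k hk => hx k (mem_insert_of_mem hk)
    have h2 := hx i (mem_insert_self _ _)
    have h3 : ‖∑ i ∈ s, x i‖ ≤ e := IsUltrametricDist.norm_sum_le_of_forall_le_of_nonneg he0
      fun k hk => hx k (mem_insert_of_mem hk)
    rw [prod_insert hi, sum_insert hi, show (1 - x i) * ∏ i ∈ s, (1 - x i) - (1 - (x i + ∑ i ∈ s, x i))
      = (1 - x i) * (∏ i ∈ s, (1 - x i) - (1 - ∑ i ∈ s, x i)) + x i * ∑ i ∈ s, x i by ring]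
    refine nadd ?_ ?_
    · rw [norm_mul]
      exact (mul_le_of_le_one_left (norm_nonneg _) (nsub (by simp) (h2.trans he))).trans h1
    · rw [norm_mul]
      exact mul_le_mul h2 h3 (norm_nonneg _) he0

lemma prod_mod {a : ℕ} (hpa : ¬ p ∣ a) :
    ∏ i ∈ Ico 1 p, (a * i % p) = ∏ i ∈ Ico 1 p, i := by
  have hc : Nat.Coprime p a := (Nat.Prime.coprime_iff_not_dvd hp.out).2 hpa
  have hmaps : ∀ i ∈ Ico 1 p, a * i % p ∈ Ico 1 p := by
    intro i hi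
    rw [mem_Ico] at hi ⊢
    refine ⟨Nat.pos_of_ne_zero fun h => ?_, Nat.mod_lt _ hp.out.pos⟩
    exact Nat.not_dvd_of_pos_of_lt hi.1 hi.2 (hc.dvd_of_dvd_mul_left (Nat.dvd_of_mod_eq_zero h))
  have hinj : Set.InjOn (fun i => a * i % p) (Ico 1 p : Finset ℕ) := by
    intro i hi j hj h
    have h2 : i ≡ j [MOD p] := Nat.ModEq.cancel_left_of_coprime hc h
    exact Nat.ModEq.eq_of_lt_of_lt h2 (mem_Ico.1 hi).2 (mem_Ico.1 hj).2
  have himg : (Ico 1 p).image (fun i => a * i % p) = Ico 1 p :=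
    eq_of_subset_of_card_le (image_subset_iff.2 hmaps) (by rw [card_image_of_injOn hinj])
  conv_rhs => rw [← himg, prod_image hinj]

lemma harm_eq (K : Type*) [Field K] (n : ℕ) :
    rho K 1 1 n = ∑ i ∈ Ico 1 (n + 1), ((i : K))⁻¹ := by
  rw [rho, sum_Ico_eq_sum_range]
  simp [add_comm]

lemma div_eq_card {a i : ℕ} (hpa : ¬ p ∣ a) (ha : 0 < a) (h1 : 1 ≤ i) (h2 : i < p) :
    a * i / p = #{k ∈ Ico 1 a | k * p / a < i} := by
  have hp0 := hp.out.pos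
  have : {k ∈ Ico 1 a | k * p / a < i} = Ico 1 (a * i / p + 1) := by
    ext k
    rw [mem_filter, mem_Ico, mem_Ico, Nat.div_lt_iff_lt_mul ha, Nat.lt_succ_iff,
      Nat.le_div_iff_mul_le hp0, mul_comm i a]
    constructor
    · rintro ⟨⟨h3, -⟩, h4⟩
      exact ⟨h3, h4.le⟩
    · rintro ⟨h3, h4⟩
      have h5 : k * p ≠ a * i := fun h => Nat.not_dvd_of_pos_of_lt h1 h2
        (((Nat.Prime.coprime_iff_not_dvd hp.out).2 hpa).dvd_of_dvd_mul_left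
          (h ▸ dvd_mul_left p k))
      refine ⟨⟨h3, ?_⟩, lt_of_le_of_ne h4 h5⟩
      by_contra h6
      push Not at h6
      have := Nat.mul_le_mul_right p h6
      have := Nat.mul_lt_mul_of_pos_left h2 ha
      omega
  rw [this, Nat.card_Ico]; simp

/-- Fermat quotient -/
def fq (a p : ℕ) : ℕ := (a ^ (p - 1) - 1) / p

lemma fq_spec {a : ℕ} (hpa : ¬ p ∣ a) : a ^ (p - 1) = 1 + p * fq a p := by
  have ha : 0 < a := Nat.pos_of_ne_zero fun h => hpa (h ▸ dvd_zero p)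
  have h1 : a ^ (p - 1) ≡ 1 [MOD p] := by
    have := Nat.ModEq.pow_totient ((Nat.Prime.coprime_iff_not_dvd hp.out).2 hpa).symm
    rwa [Nat.totient_prime hp.out] at this
  have h2 : 1 ≤ a ^ (p - 1) := Nat.one_le_pow _ _ ha
  have h3 := (Nat.modEq_iff_dvd' h2).1 h1.symm
  rw [fq, Nat.mul_div_cancel' h3]
  omega

/-- Lerch's formula -/
theorem lerch {a : ℕ} (hpa : ¬ p ∣ a) :
    ‖(a : ℚ_[p]) * fq a p -
      ∑ k ∈ Ico 1 a, (rho ℚ_[p] 1 1 (p - 1) - rho ℚ_[p] 1 1 (k * p / a))‖ ≤ (p:ℝ)⁻¹ := by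
  have ha : 0 < a := Nat.pos_of_ne_zero fun h => hpa (h ▸ dvd_zero p)
  have hp1 := one_le_p (p := p)
  have hp0 : (0:ℝ) < p := lt_of_lt_of_le zero_lt_one hp1
  have ha' : (a : ℚ_[p]) ≠ 0 := Nat.cast_ne_zero.2 ha.ne'
  have hp' : (p : ℚ_[p]) ≠ 0 := Nat.cast_ne_zero.2 hp.out.ne_zero
  set S : ℚ_[p] := ∑ i ∈ Ico 1 p, ((a * i / p : ℕ) : ℚ_[p]) * (i : ℚ_[p])⁻¹ with hS
  have hunit : ∀ i ∈ Ico 1 p, ‖((i : ℚ_[p]))⁻¹‖ = 1 := fun i hi =>
    norm_inv_nat_of_not_dvd (Nat.not_dvd_of_pos_of_lt (mem_Ico.1 hi).1 (mem_Ico.1 hi).2)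
  have e1 : ∑ k ∈ Ico 1 a, (rho ℚ_[p] 1 1 (p - 1) - rho ℚ_[p] 1 1 (k * p / a)) = S := by
    have e0 : S = ∑ i ∈ Ico 1 p, ∑ k ∈ Ico 1 a,
        ((if k * p / a < i then 1 else 0 : ℕ) : ℚ_[p]) * (i : ℚ_[p])⁻¹ :=
      sum_congr rfl fun i hi => by
        rw [div_eq_card hpa ha (mem_Ico.1 hi).1 (mem_Ico.1 hi).2, card_filter, Nat.cast_sum,
          sum_mul]
    rw [e0, sum_comm]
    refine sum_congr rfl fun k hk => ?_
    have h1 : k * p / a < p := by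
      rw [Nat.div_lt_iff_lt_mul ha, mul_comm p a]
      exact Nat.mul_lt_mul_of_pos_right (mem_Ico.1 hk).2 hp.out.pos
    rw [harm_eq, harm_eq, Nat.sub_add_cancel hp.out.one_le,
      ← sum_Ico_consecutive _ (Nat.le_add_left 1 (k * p / a)) h1,
      ← sum_Ico_consecutive _ (Nat.le_add_left 1 (k * p / a)) h1, add_sub_cancel_left,
      sum_eq_zero (s := Ico 1 (k * p / a + 1)), zero_add]
    · refine sum_congr rfl fun i hi => ?_
      rw [if_pos (by have := (mem_Ico.1 hi).1; omega)]; simp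
    · intro i hi
      rw [if_neg (by have := (mem_Ico.1 hi).2; omega)]; simp
  set x : ℕ → ℚ_[p] := fun i => (p : ℚ_[p]) * (a : ℚ_[p])⁻¹ *
    (((a * i / p : ℕ) : ℚ_[p]) * (i : ℚ_[p])⁻¹) with hx
  have hpa' : ‖(p : ℚ_[p]) * (a : ℚ_[p])⁻¹‖ = (p:ℝ)⁻¹ := by
    rw [norm_mul, norm_inv_nat_of_not_dvd hpa, Padic.norm_p, mul_one]
  have hxn : ∀ i ∈ Ico 1 p, ‖x i‖ ≤ (p:ℝ)⁻¹ := fun i hi => by
    simp only [hx]
    rw [norm_mul, hpa']
    exact mul_le_of_le_one_right (by positivity) (nnat _ (hunit i hi).le)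
  have h2 := prod_one_sub _ x (by positivity) (inv_le_one_of_one_le₀ hp1) hxn
  have e2 : (a : ℚ_[p]) ^ (p - 1) * ∏ i ∈ Ico 1 p, (1 - x i) = 1 := by
    have h3 : (∏ i ∈ Ico 1 p, (i : ℚ_[p])) ≠ 0 := prod_ne_zero_iff.2 fun i hi =>
      Nat.cast_ne_zero.2 (by have := (mem_Ico.1 hi).1; omega)
    refine mul_right_cancel₀ h3 ?_
    rw [one_mul, ← Nat.card_Ico 1 p, ← prod_const, ← prod_mul_distrib, ← prod_mul_distrib]
    conv_rhs => rw [← Nat.cast_prod, ← prod_mod hpa, Nat.cast_prod]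
    refine prod_congr rfl fun i hi => ?_
    have h4 : (i : ℚ_[p]) ≠ 0 := Nat.cast_ne_zero.2 (by have := (mem_Ico.1 hi).1; omega)
    have h5 : ((a * i % p : ℕ) : ℚ_[p]) = a * i - p * ((a * i / p : ℕ) : ℚ_[p]) := by
      rw [eq_sub_iff_add_eq]; exact_mod_cast Nat.mod_add_div (a * i) p
    rw [h5]
    simp only [hx]
    field_simp
  have e3 : (a : ℚ_[p]) ^ (p - 1) = 1 + p * fq a p := by exact_mod_cast fq_spec hpa
  have e4 : ∑ i ∈ Ico 1 p, x i = (p : ℚ_[p]) * (a : ℚ_[p])⁻¹ * S := by rw [hS, mul_sum]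
  have hSn : ‖S‖ ≤ 1 := IsUltrametricDist.norm_sum_le_of_forall_le_of_nonneg zero_le_one
    fun i hi => nnat _ (hunit i hi).le
  rw [e4] at h2
  set E := ∏ i ∈ Ico 1 p, (1 - x i) - (1 - (p : ℚ_[p]) * (a : ℚ_[p])⁻¹ * S) with hE
  have e5 : (a : ℚ_[p]) * fq a p - S =
      (p : ℚ_[p]) * (fq a p * S) - (a : ℚ_[p]) ^ p * ((p : ℚ_[p])⁻¹ * E) := by
    have h6 : (a : ℚ_[p]) ^ p = a * (a : ℚ_[p]) ^ (p - 1) := by
      rw [← pow_succ', Nat.sub_add_cancel hp.out.one_le]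
    have h7 : (a : ℚ_[p]) ^ (p - 1) * E =
        1 - (1 + p * fq a p) * (1 - (p : ℚ_[p]) * (a : ℚ_[p])⁻¹ * S) := by
      rw [hE, mul_sub, e2, e3]
    rw [h6, mul_assoc, mul_left_comm ((a : ℚ_[p]) ^ (p - 1)), h7]
    field_simp
    ring
  rw [e1, e5]
  refine nsub ?_ ?_
  · rw [norm_mul, Padic.norm_p]
    exact mul_le_of_le_one_right (by positivity) (nnat _ hSn)
  · rw [← Nat.cast_pow]
    refine nnat _ ?_
    rw [norm_mul, norm_inv, Padic.norm_p, inv_inv]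
    calc _ ≤ (p:ℝ) * ((p:ℝ)⁻¹ * (p:ℝ)⁻¹) := by gcongr
      _ = _ := by field_simp

lemma harm_reflect {n j : ℕ} (h : n + j = p - 1) :
    ‖rho ℚ_[p] 1 1 n - rho ℚ_[p] 1 1 j - rho ℚ_[p] 1 1 (p - 1)‖ ≤ (p:ℝ)⁻¹ := by
  have := reflect (p := p) (a := 1) (s := 1) (m := p - 1) zero_lt_one hp.out.not_dvd_one
    (by have := hp.out.pos; omega) (by rw [one_mul, Nat.sub_add_cancel hp.out.one_le]) j n h
  simpa using this

lemma harm_full (h2 : p ≠ 2) : ‖rho ℚ_[p] 1 1 (p - 1)‖ ≤ (p:ℝ)⁻¹ := by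
  obtain ⟨m, hm⟩ := hp.out.odd_of_ne_two h2
  simpa using harm_reflect (p := p) (n := m) (j := m) (by omega)

lemma norm_of_dvd {z : ℤ} (h : (p:ℤ) ∣ z) : ‖(z : ℚ_[p])‖ ≤ (p:ℝ)⁻¹ := by
  obtain ⟨l, rfl⟩ := h
  rw [mul_comm, Int.cast_mul, Int.cast_natCast]
  exact nint l Padic.norm_p.le

/-- base two -/
lemma good_two {m : ℕ} (h2 : ¬ p ∣ 2) (hm : m < p) (hd : p ∣ 2 * m + 1) {u v : ℤ}
    (h : (p:ℤ) ∣ v * fq 2 p - u) : ‖fr ℚ_[p] (2 * u) v m‖ ≤ (p:ℝ)⁻¹ := by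
  have hne : p ≠ 2 := fun h => h2 (h ▸ dvd_rfl)
  obtain ⟨k, hk⟩ := hp.out.odd_of_ne_two hne
  have hm' : p / 2 = m := by
    have := dvd_iff (i := k) h2 hm hd (hk ▸ dvd_rfl)
    rw [Nat.mod_eq_of_lt (by omega)] at this
    omega
  have h1 := lerch h2
  simp only [Nat.Ico_succ_singleton, sum_singleton, one_mul, hm'] at h1
  have h3 := norm_of_dvd h
  have h4 := nsub (nint v (nadd h1 (harm_full hne))) (nint 2 h3)
  refine le_of_eq_of_le (congrArg _ ?_) h4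
  simp only [fr]
  push_cast
  ring

/-- base three -/
lemma good_three {m : ℕ} (h2 : p ≠ 2) (h3 : ¬ p ∣ 3) (hm : m < p) (hd : p ∣ 3 * m + 1) {u v : ℤ}
    (h : (p:ℤ) ∣ v * fq 3 p - u) : ‖fr ℚ_[p] (3 * u) (2 * v) m‖ ≤ (p:ℝ)⁻¹ := by
  have h1 := lerch h3
  rw [show Ico 1 3 = {1, 2} by rfl, sum_pair (by norm_num), one_mul] at h1
  have h0 : p % 3 ≠ 0 := fun h => h3 (by
    rw [(Nat.prime_dvd_prime_iff_eq Nat.prime_three hp.out).1 (Nat.dvd_of_mod_eq_zero h)])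
  have h5 := harm_reflect (p := p) (n := p / 3) (j := 2 * p / 3) (by omega)
  have h6 := harm_full h2
  have h4 := norm_of_dvd h
  have hcase : m = p / 3 ∨ m = 2 * p / 3 := by
    rcases (by omega : p % 3 = 1 ∨ p % 3 = 2) with h7 | h7
    · left
      have := dvd_iff (i := p / 3) h3 hm hd (by rw [show 3 * (p / 3) + 1 = p by omega])
      rw [Nat.mod_eq_of_lt (by omega)] at this
      exact this.symm
    · right
      have := dvd_iff (i := 2 * p / 3) h3 hm hd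
        (by rw [show 3 * (2 * p / 3) + 1 = p * 2 by omega]; exact dvd_mul_right _ _)
      rw [Nat.mod_eq_of_lt (by omega)] at this
      exact this.symm
  rcases hcase with rfl | rfl
  · have h8 := nsub (nint v (nadd (nadd h1 h5) (nnat 3 h6))) (nint 3 h4)
    refine le_of_eq_of_le (congrArg _ ?_) h8
    simp only [fr]
    push_cast
    ring
  · have h8 := nsub (nint v (nadd (nsub h1 h5) h6)) (nint 3 h4)
    refine le_of_eq_of_le (congrArg _ ?_) h8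
    simp only [fr]
    push_cast
    ring

end

end Pool.Agent.NW
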