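import Pool.Agent.Shared.NonWief.Lerch

/-!
The product formula and the master inequality.
-/

set_option autoImplicit false

namespace Pool.Agent.NW

open Finset Filter Topology

noncomputable section

/-- logarithm of the `p`-adic norm -/
def lg (p : ℕ) (x : ℚ) : ℝ := -(padicValRat p x : ℝ) * Real.log p

lemma lg_eq {p : ℕ} [hp : Fact p.Prime] {x : ℚ} (hx : x ≠ 0) :
    lg p x = Real.log ‖(x : ℚ_[p])‖ := by
  rw [Padic.norm_eq_zpow_neg_valuation (Rat.cast_ne_zero.2 hx), Padic.valuation_ratCast,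
    Real.log_zpow, lg]
  simp

lemma lg_le {p : ℕ} [hp : Fact p.Prime] {x : ℚ} (hx : x ≠ 0) {B : ℝ} (h : ‖(x : ℚ_[p])‖ ≤ B) :
    lg p x ≤ Real.log B := by
  rw [lg_eq hx]
  exact Real.log_le_log (norm_pos_iff.2 (Rat.cast_ne_zero.2 hx)) h

lemma sum_val_eq (n : ℕ) (S : Finset ℕ) (hS : ∀ p ∈ S, p.Prime) :
    ∑ p ∈ S, (padicValNat p n : ℝ) * Real.log p = ∑ p ∈ S, (n.factorization p : ℝ) * Real.log p :=
  sum_congr rfl fun p hp => by rw [Nat.factorization_def n (hS p hp)]

lemma sum_val_le (n : ℕ) (S : Finset ℕ) (hS : ∀ p ∈ S, p.Prime) :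
    ∑ p ∈ S, (padicValNat p n : ℝ) * Real.log p ≤ Real.log n := by
  rw [Real.log_nat_eq_sum_factorization, Finsupp.sum, sum_val_eq n S hS,
    ← sum_subset (inter_subset_left (s₂ := n.factorization.support)) fun p hp h => by
      rw [Finsupp.notMem_support_iff.1 fun h' => h (mem_inter.2 ⟨hp, h'⟩)]; simp]
  exact sum_le_sum_of_subset_of_nonneg inter_subset_right fun p _ _ =>
    mul_nonneg (Nat.cast_nonneg _) (Real.log_natCast_nonneg p)

lemma le_sum_val (n : ℕ) (S : Finset ℕ) (hS : ∀ p ∈ S, p.Prime) (h : n.primeFactors ⊆ S) :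
    Real.log n ≤ ∑ p ∈ S, (padicValNat p n : ℝ) * Real.log p := by
  rw [Real.log_nat_eq_sum_factorization, Finsupp.sum, sum_val_eq n S hS]
  exact sum_le_sum_of_subset_of_nonneg h fun p _ _ =>
    mul_nonneg (Nat.cast_nonneg _) (Real.log_natCast_nonneg p)

lemma prodform {x : ℚ} (hx : x ≠ 0) (S : Finset ℕ) (hS : ∀ p ∈ S, p.Prime)
    (h : ∀ p, p.Prime → p ∉ S → lg p x ≤ 0) : 0 ≤ Real.log |(x:ℝ)| + ∑ p ∈ S, lg p x := by
  have h1 := sum_val_le x.num.natAbs S hS
  have h2 := le_sum_val x.den S hS fun p hp => by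
    by_contra hn
    have hpp := Nat.prime_of_mem_primeFactors hp
    have := Fact.mk hpp
    have h3 := h p hpp hn
    have hd := Nat.dvd_of_mem_primeFactors hp
    have h4 : padicValNat p x.num.natAbs = 0 := padicValNat.eq_zero_of_not_dvd fun h5 =>
      hpp.one_lt.ne' (Nat.eq_one_of_dvd_coprimes x.reduced h5 hd)
    have h5 : (1:ℝ) ≤ padicValNat p x.den := by
      exact_mod_cast one_le_padicValNat_of_dvd x.den_nz hd
    have h6 : 0 < Real.log p := Real.log_pos (by exact_mod_cast hpp.one_lt)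
    rw [lg, padicValRat, padicValInt, h4, Int.cast_sub, Int.cast_natCast, Int.cast_natCast,
      Nat.cast_zero] at h3
    nlinarith
  have h3 : Real.log |(x:ℝ)| = Real.log x.num.natAbs - Real.log x.den := by
    rw [Rat.cast_def, abs_div, Real.log_div (by simpa using hx) (by simp), Nat.cast_natAbs,
      Int.cast_abs, Nat.abs_cast]
  have h4 : ∑ p ∈ S, lg p x = ∑ p ∈ S, (padicValNat p x.den : ℝ) * Real.log p -
      ∑ p ∈ S, (padicValNat p x.num.natAbs : ℝ) * Real.log p := by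
    rw [← sum_sub_distrib]
    refine sum_congr rfl fun p _ => ?_
    rw [lg, padicValRat, padicValInt, Int.cast_sub, Int.cast_natCast, Int.cast_natCast]
    ring
  linarith

lemma arch_log {a s : ℕ} (ha : 0 < a) (hs : 0 < s) (c : ℤ) {d : ℤ} (hd : d ≠ 0) {N : ℕ}
    (hN : 0 < N) (hx : (mm ℚ a s c d N).det ≠ 0) :
    Real.log |(((mm ℚ a s c d N).det : ℚ) : ℝ)| + N * (N - 1) * Real.log 4 ≤
      N * (Real.log (16 * (|(d:ℝ)| * a + |(c:ℝ)|)) + 3 * Real.log N) := by
  have ha' : (1:ℝ) ≤ a := by exact_mod_cast ha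
  have hd' : (1:ℝ) ≤ |(d:ℝ)| := by exact_mod_cast Int.one_le_abs hd
  have hN' : (0:ℝ) < N := by exact_mod_cast hN
  have hf : Tame (fr ℝ c d) (|(d:ℝ)| * a + |(c:ℝ)|) :=
    (((tame_rho one_pos one_pos).smul d).add (Tame.const c)).mono (by nlinarith)
  have hg : Tame (gc ℝ a s d) (|(d:ℝ)| * a + |(c:ℝ)|) :=
    (((tame_rho ha hs).smul a).smul d).mono (by
      rw [Nat.abs_cast, mul_one]; linarith [abs_nonneg (c:ℝ)])
  have h := arch (a := a) hs hf hg N
  have hK : 0 < |(d:ℝ)| * a + |(c:ℝ)| := by positivity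
  have h0 : 0 < |(((mm ℚ a s c d N).det : ℚ) : ℝ)| := abs_pos.2 (Rat.cast_ne_zero.2 hx)
  have hfac : (N.factorial : ℝ) ≤ (N:ℝ) ^ N := by exact_mod_cast Nat.factorial_le_pow N
  have h1 : |(((mm ℚ a s c d N).det : ℚ) : ℝ)| * 4 ^ (N * (N - 1)) ≤
      (16 * (|(d:ℝ)| * a + |(c:ℝ)|) * (N:ℝ) ^ 3) ^ N := by
    rw [det_cast]
    refine h.trans ((mul_le_mul_of_nonneg_right hfac (by positivity)).trans (le_of_eq ?_))
    rw [← mul_pow]; congr 1; ring
  have h2 := Real.log_le_log (by positivity) h1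
  rw [Real.log_mul h0.ne' (by positivity), Real.log_pow, Real.log_pow,
    Real.log_mul (by positivity) (by positivity), Real.log_pow] at h2
  rw [Nat.cast_mul, Nat.cast_pred hN] at h2
  exact_mod_cast h2

lemma adic_log {q : ℕ} [hq : Fact q.Prime] {s : ℕ} (hs : ¬ q ∣ s) (c d : ℤ) {N : ℕ}
    (hN : 0 < N) (hx : (mm ℚ q s c d N).det ≠ 0) :
    lg q (mm ℚ q s c d N).det + (3 * (N * (N - 1)) / 4 - N / 2) * (q / (q - 1) * Real.log q) ≤
      N * (2 * Real.log q + 3 * Real.log N) := by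
  have hq1 : (1:ℝ) < q := by exact_mod_cast hq.out.one_lt
  have hN' : (1:ℝ) ≤ N := by exact_mod_cast hN
  have hlog : (q:ℝ) ^ Nat.log q N ≤ N := by exact_mod_cast Nat.pow_log_le_self q hN.ne'
  have hq' : (q : ℚ_[q]) ≠ 0 := Nat.cast_ne_zero.2 hq.out.ne_zero
  have hl : 0 < Real.log q := Real.log_pos hq1
  set ρ : ℝ := Real.exp (-(q / (q - 1) * Real.log q)) with hρ
  have hρ0 : 0 < ρ := Real.exp_pos _
  have hρ1 : ρ ≤ 1 := Real.exp_le_one_iff.2 (neg_nonpos.2
    (mul_nonneg (div_nonneg (by linarith) (by linarith)) hl.le))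
  have h := adic (q := q) (a := q) (N := N) dvd_rfl hs (f := fr ℚ_[q] c d) (g := gc ℚ_[q] q s d)
    (E := N) (D := q * N) (lam := (q : ℚ_[q]) ^ Nat.log q N) hρ0 hρ1 (by positivity)
    (by positivity) ?_ ?_ (pow_ne_zero _ hq') ?_ ?_
  · have h0 : 0 < ‖(mat q s (fr ℚ_[q] c d) (gc ℚ_[q] q s d) N).det‖ := by
      rw [norm_pos_iff, ← mm, ← det_cast]; exact Rat.cast_ne_zero.2 hx
    have h2 := Real.log_le_log (by positivity) h
    rw [Real.log_mul (by positivity) (by positivity), Real.log_mul (by positivity) (by positivity),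
      Real.log_pow, Real.log_pow, Real.log_pow, Real.log_pow, hρ, Real.log_exp,
      Real.log_mul (by positivity) (by positivity), Real.log_pow,
      Real.log_mul (by positivity) (by positivity)] at h2
    rw [lg_eq hx, det_cast, mm]
    push_cast [Nat.cast_pred hN] at h2
    linarith
  · intro b hb
    have h1 : (b:ℝ) ≤ (q - 1) * (padicValNat q b.factorial + Nat.log q b + 1) := by
      have := factorial_val (q := q) b
      rw [← Nat.cast_pred hq.out.pos]
      exact_mod_cast this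
    have h2 : (q:ℝ) ^ Nat.log q b ≤ N :=
      (pow_le_pow_right₀ hq1.le (Nat.log_mono_right hb.le)).trans hlog
    have h3 := Real.log_le_log (by positivity) h2
    rw [Real.log_pow] at h3
    have h4 : (b.factorial : ℚ_[q]) ≠ 0 := Nat.cast_ne_zero.2 b.factorial_ne_zero
    rw [← Real.log_le_log_iff (norm_pos_iff.2 (mul_ne_zero (pow_ne_zero _ hq') h4))
      (by positivity), norm_mul, Padic.norm_p_pow, Padic.norm_eq_zpow_neg_valuation h4,
      Padic.valuation_natCast, Real.log_mul (by positivity) (by positivity), Real.log_zpow,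
      Real.log_zpow, Real.log_mul (by positivity) (by positivity),
      Real.log_mul (by positivity) (by positivity), Real.log_pow, hρ, Real.log_exp]
    have h5 : (b:ℝ) * (q / (q - 1)) = b + b / (q - 1) := by
      have : (q:ℝ) - 1 ≠ 0 := by linarith
      field_simp; ring
    have h6 : (b:ℝ) / (q - 1) ≤ padicValNat q b.factorial + Nat.log q b + 1 := by
      rw [div_le_iff₀ (by linarith)]; linarith
    have h7 := mul_le_mul_of_nonneg_right h6 hl.le
    rw [mul_neg, ← mul_assoc, h5, Int.cast_neg, Int.cast_neg, Int.cast_natCast, Int.cast_natCast]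
    linarith
  · intro n hn
    exact norm_fr_le c d hN' (norm_rho_le (by positivity) fun i hi =>
      (norm_inv_nat_le (K := N) (by omega)).trans hlog)
  · rw [norm_inv, Padic.norm_p_pow, zpow_neg, inv_inv, zpow_natCast]; exact hlog
  · exact ((IntP.const (Padic.norm_int_le_one d)).mul (intP_rho dvd_rfl hs)).congr fun j _ => by
      simp only [gc]; ring

open Classical in
/-- sum of `log p` over the primes `p ≤ x` with `Bad p` -/
def thb (Bad : ℕ → Prop) (x : ℕ) : ℝ := ∑ p ∈ Icc 1 x with p.Prime ∧ Bad p, Real.log p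

open Classical in
lemma odd_log {a s : ℕ} (ha : 0 < a) (hs : 0 < s) (c d : ℤ) {N : ℕ}
    (hx : (mm ℚ a s c d N).det ≠ 0) {p : ℕ} [hp : Fact p.Prime] (hpa : ¬ p ∣ a) (B : Prop)
    (hg : ∀ m < p, p ∣ a * m + s → ¬ B → ‖fr ℚ_[p] c d m‖ ≤ (p:ℝ)⁻¹) {W : ℝ} (hW0 : 0 ≤ W)
    (hW : ∀ m < p, p ∣ a * m + s → (cost N p m : ℝ) ≤ W) :
    lg p (mm ℚ a s c d N).det ≤
      (if p ^ 2 ≤ a * (2 * N) + s then 2 * N * Real.log (a * (2 * N) + s : ℕ) else 0) +
        W * Real.log p + N * (if B then Real.log p else 0) := by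
  have hp1 := one_le_p (p := p)
  have hl : 0 ≤ Real.log p := Real.log_nonneg hp1
  have h3 : (0:ℝ) ≤ N * (if B then Real.log p else 0) := by split_ifs <;> positivity
  by_cases h : p ^ 2 ≤ a * (2 * N) + s
  · rw [if_pos h]
    have h1 := lg_le hx ((det_cast ℚ_[p] a s c d N).symm ▸ det_crude ha hs c d N)
    have h2 : (p:ℝ) ^ Nat.log p (a * (2 * N) + s) ≤ (a * (2 * N) + s : ℕ) := by
      exact_mod_cast Nat.pow_log_le_self p (by omega)
    have h4 := Real.log_le_log (by positivity) h2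
    rw [Real.log_pow] at h1 h4
    have h5 := mul_le_mul_of_nonneg_left h4 (show (0:ℝ) ≤ 2 * N by positivity)
    have h6 := mul_nonneg hW0 hl
    rw [Nat.cast_mul, Nat.cast_mul, Nat.cast_ofNat] at h1
    linarith
  · rw [if_neg h, zero_add]
    obtain ⟨m, hm, hd⟩ := exists_m s hpa
    have h6 := mul_le_mul_of_nonneg_right (hW m hm hd) hl
    by_cases hB : B
    · have h1 := lg_le hx ((det_cast ℚ_[p] a s c d N).symm ▸ det_odd ha hs hpa hm hd c d
        (not_le.1 h) (G := 1) (inv_le_one_of_one_le₀ hp1) (norm_fr_le c d le_rfl (harm_int hm)))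
      rw [Real.log_mul (by positivity) (by positivity), Real.log_pow, Real.log_pow, one_mul] at h1
      rw [if_pos hB]
      linarith
    · have h1 := lg_le hx ((det_cast ℚ_[p] a s c d N).symm ▸ det_odd ha hs hpa hm hd c d
        (not_le.1 h) le_rfl (hg m hm hd hB))
      rw [inv_mul_cancel₀ (by positivity), one_pow, one_mul, Real.log_pow] at h1
      linarith

/-- the master inequality -/
theorem master {q : ℕ} [hq : Fact q.Prime] (c : ℤ) {d : ℤ} (hd : d ≠ 0) (Bad : ℕ → Prop)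
    (hg : ∀ (p : ℕ) [Fact p.Prime], p ≠ q → ∀ m < p, p ∣ q * m + 1 → ¬ Bad p →
      ‖fr ℚ_[p] c d m‖ ≤ (p:ℝ)⁻¹) {N : ℕ} (hN : 0 < N) (W : ℕ → ℝ) (hW0 : ∀ p, 0 ≤ W p)
    (hW : ∀ p, p.Prime → p ≠ q → ∀ m < p, p ∣ q * m + 1 → (cost N p m : ℝ) ≤ W p)
    (hx : (mm ℚ q 1 c d N).det ≠ 0) :
    N * (N - 1) * Real.log 4 + (3 * (N * (N - 1)) / 4 - N / 2) * (q / (q - 1) * Real.log q) ≤
      N * (Real.log (16 * (|(d:ℝ)| * q + |(c:ℝ)|)) + 3 * Real.log N) +
      N * (2 * Real.log q + 3 * Real.log N) +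
      √(q * (2 * N) + 1 : ℕ) * (2 * N * Real.log (q * (2 * N) + 1 : ℕ)) +
      ∑ p ∈ Icc 1 (q * (2 * N) + 1) with p.Prime, W p * Real.log p +
      N * thb Bad (q * (2 * N) + 1) := by
  classical
  set T := q * (2 * N) + 1 with hT
  set S := {p ∈ Icc 1 T | p.Prime} with hS
  have hq0 := hq.out.pos
  have hqS : q ∈ S := mem_filter.2 ⟨mem_Icc.2 ⟨hq0, by nlinarith⟩, hq.out⟩
  have h1 := prodform hx S (fun p hp => (mem_filter.1 hp).2) fun p hp hn => by
    have := Fact.mk hp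
    have h2 : T < p := by
      by_contra h3
      exact hn (mem_filter.2 ⟨mem_Icc.2 ⟨hp.pos, not_lt.1 h3⟩, hp⟩)
    have h1 := lg_le hx ((det_cast ℚ_[p] q 1 c d N).symm ▸ det_crude hq0 one_pos c d N)
    rwa [Nat.log_of_lt h2, mul_zero, zero_mul, pow_zero, Real.log_one] at h1
  have h2 := arch_log hq0 one_pos c hd hN hx
  have h3 := adic_log hq.out.not_dvd_one c d hN hx
  have hlT : 0 ≤ 2 * N * Real.log (T:ℕ) := mul_nonneg (by positivity) (Real.log_natCast_nonneg _)
  have h4 : ∑ p ∈ S.erase q, lg p (mm ℚ q 1 c d N).det ≤ ∑ p ∈ S,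
      ((if p ^ 2 ≤ T then 2 * N * Real.log (T:ℕ) else 0) +
        W p * Real.log p + N * (if Bad p then Real.log p else 0)) := by
    refine (sum_le_sum fun p hp => ?_).trans
      (sum_le_sum_of_subset_of_nonneg (erase_subset _ _) fun p _ _ => ?_)
    · have hpp := (mem_filter.1 (mem_erase.1 hp).2).2
      have hne := (mem_erase.1 hp).1
      have := Fact.mk hpp
      have h5 := odd_log hq0 one_pos c d hx (p := p)
        (fun h => hne ((Nat.prime_dvd_prime_iff_eq hpp hq.out).1 h)) (Bad p) (hg p hne) (hW0 p)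
        (hW p hpp hne)
      convert h5
    · have := Real.log_natCast_nonneg p
      have := hW0 p
      split_ifs <;> positivity
  rw [sum_add_distrib, sum_add_distrib, ← mul_sum, ← sum_filter, ← sum_filter, sum_const,
    nsmul_eq_mul, hS, filter_filter _ Bad] at h4
  have h5 : ((#{p ∈ {p ∈ Icc 1 T | p.Prime} | p ^ 2 ≤ T} : ℕ) : ℝ) ≤ √(T:ℕ) := by
    refine le_trans ?_ Real.nat_sqrt_le_real_sqrt
    rw [Nat.cast_le]
    refine (card_le_card (t := Icc 1 (Nat.sqrt T)) fun p hp => ?_).trans (by simp)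
    rw [mem_filter, mem_filter, mem_Icc] at hp
    exact mem_Icc.2 ⟨hp.1.1.1, Nat.le_sqrt'.2 hp.2⟩
  have h6 := mul_le_mul_of_nonneg_right h5 hlT
  rw [← add_sum_erase _ _ hqS] at h1
  have h7 : thb Bad T = ∑ p ∈ Icc 1 T with p.Prime ∧ Bad p, Real.log p := by
    rw [thb]
  rw [h7]
  linarith

end

end Pool.Agent.NW
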