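import Pool.Agent.Shared.NonWief.Adic

/-!
Bounds at the primes `p` not dividing `a`, and non-vanishing of the determinant.
-/

set_option autoImplicit false

namespace Pool.Agent.NW

open Finset Matrix

noncomputable section

/-- row sequence `d H_n + c` -/
def fr (K : Type*) [Field K] (c d : ℤ) (n : ℕ) : K := d * rho K 1 1 n + c

/-- column sequence `d ∑ i < j, a / (a i + s)` -/
def gc (K : Type*) [Field K] (a s : ℕ) (d : ℤ) (j : ℕ) : K := d * (a * rho K a s j)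

/-- the matrix -/
def mm (K : Type*) [Field K] (a s : ℕ) (c d : ℤ) (N : ℕ) : Matrix (Fin N) (Fin N) K :=
  mat a s (fr K c d) (gc K a s d) N

lemma det_cast (K : Type*) [Field K] [CharZero K] (a s : ℕ) (c d : ℤ) (N : ℕ) :
    (((mm ℚ a s c d N).det : ℚ) : K) = (mm K a s c d N).det := by
  have := RingHom.map_det (Rat.castHom K) (mm ℚ a s c d N)
  rw [Rat.coe_castHom] at this
  rw [this]
  congr 1
  ext n j
  simp [mm, mat, fr, gc, rho]

variable {p : ℕ} [hp : Fact p.Prime]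

lemma nsub {x y : ℚ_[p]} {B : ℝ} (hx : ‖x‖ ≤ B) (hy : ‖y‖ ≤ B) : ‖x - y‖ ≤ B := by
  rw [sub_eq_add_neg]
  exact (IsUltrametricDist.norm_add_le_max _ _).trans (max_le hx (by rwa [norm_neg]))

lemma nadd {x y : ℚ_[p]} {B : ℝ} (hx : ‖x‖ ≤ B) (hy : ‖y‖ ≤ B) : ‖x + y‖ ≤ B :=
  (IsUltrametricDist.norm_add_le_max _ _).trans (max_le hx hy)

lemma nint (d : ℤ) {x : ℚ_[p]} {B : ℝ} (hx : ‖x‖ ≤ B) : ‖(d : ℚ_[p]) * x‖ ≤ B := by
  rw [norm_mul]
  exact (mul_le_of_le_one_left (norm_nonneg _) (Padic.norm_int_le_one d)).trans hx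

lemma nnat (d : ℕ) {x : ℚ_[p]} {B : ℝ} (hx : ‖x‖ ≤ B) : ‖(d : ℚ_[p]) * x‖ ≤ B := by
  simpa using nint (d : ℤ) hx

lemma norm_rho_le {a s j : ℕ} {B : ℝ} (hB : 0 ≤ B)
    (h : ∀ i < j, ‖(((a * i + s : ℕ) : ℚ_[p]))⁻¹‖ ≤ B) : ‖rho ℚ_[p] a s j‖ ≤ B :=
  IsUltrametricDist.norm_sum_le_of_forall_le_of_nonneg hB fun i hi => h i (mem_range.1 hi)

lemma norm_fr_le (c d : ℤ) {n : ℕ} {B : ℝ} (hB : 1 ≤ B) (h : ‖rho ℚ_[p] 1 1 n‖ ≤ B) :
    ‖fr ℚ_[p] c d n‖ ≤ B :=
  nadd (nint d h) ((Padic.norm_int_le_one c).trans hB)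

lemma one_le_p : (1:ℝ) ≤ p := by exact_mod_cast hp.out.one_le

lemma num_le {a s : ℕ} (ha : 0 < a) (hs : 0 < s) (c d : ℤ) {N n j : ℕ} (hn : n < N) (hj : j < N) :
    ‖fr ℚ_[p] c d n - gc ℚ_[p] a s d j‖ ≤ (p:ℝ) ^ Nat.log p (a * (2 * N) + s) := by
  have h1 : (1:ℝ) ≤ (p:ℝ) ^ Nat.log p (a * (2 * N) + s) := one_le_pow₀ one_le_p
  refine nsub (norm_fr_le c d h1 (norm_rho_le (by positivity) fun i hi => norm_inv_nat_le ?_))
    (nint d (nnat a (norm_rho_le (by positivity) fun i hi => norm_inv_nat_le ?_)))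
  · nlinarith
  · have : a * i ≤ a * (2 * N) := Nat.mul_le_mul_left a (by omega)
    omega

lemma den_le {a s N n j : ℕ} (hn : n < N) (hj : j < N) :
    ‖(((a * n + a * j + s : ℕ) : ℚ_[p]))⁻¹‖ ≤ (p:ℝ) ^ Nat.log p (a * (2 * N) + s) := by
  refine norm_inv_nat_le ?_
  have : a * (n + j) ≤ a * (2 * N) := Nat.mul_le_mul_left a (by omega)
  rw [mul_add] at this
  omega

lemma entry_le {a s : ℕ} (ha : 0 < a) (hs : 0 < s) (c d : ℤ) {N : ℕ} (n j : Fin N) :
    ‖mm ℚ_[p] a s c d N n j‖ ≤ (p:ℝ) ^ (2 * Nat.log p (a * (2 * N) + s)) := by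
  rw [mm, mat, of_apply, div_eq_mul_inv, norm_mul, two_mul, pow_add]
  exact mul_le_mul (num_le ha hs c d n.2 j.2) (den_le n.2 j.2) (norm_nonneg _) (by positivity)

/-- the crude bound -/
lemma det_crude {a s : ℕ} (ha : 0 < a) (hs : 0 < s) (c d : ℤ) (N : ℕ) :
    ‖(mm ℚ_[p] a s c d N).det‖ ≤ (p:ℝ) ^ (2 * Nat.log p (a * (2 * N) + s) * N) := by
  have := norm_det_le (mm ℚ_[p] a s c d N)
    (fun _ => (p:ℝ) ^ (2 * Nat.log p (a * (2 * N) + s))) (fun _ => 1) (fun _ => by positivity)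
    (fun _ => zero_le_one) fun n j => by simpa using entry_le ha hs c d n j
  simpa [← pow_mul] using this

/-- multiples of `p` in the progression `a i + s` -/
lemma dvd_iff {a s m : ℕ} (hpa : ¬ p ∣ a) (hm : m < p) (hd : p ∣ a * m + s) {i : ℕ}
    (hi : p ∣ a * i + s) : i % p = m := by
  have h1 : a * i + s ≡ a * m + s [MOD p] :=
    ((Nat.modEq_zero_iff_dvd.2 hi).trans (Nat.modEq_zero_iff_dvd.2 hd).symm)
  have h2 : i ≡ m [MOD p] := Nat.ModEq.cancel_left_of_coprime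
    ((Nat.Prime.coprime_iff_not_dvd hp.out).2 hpa) (Nat.ModEq.add_right_cancel' s h1)
  rw [h2, Nat.mod_eq_of_lt hm]

lemma exists_m {a : ℕ} (s : ℕ) (hpa : ¬ p ∣ a) : ∃ m < p, p ∣ a * m + s := by
  have ha : (a : ZMod p) ≠ 0 := fun h => hpa ((ZMod.natCast_eq_zero_iff _ _).1 h)
  refine ⟨(-(s : ZMod p) / a).val, ZMod.val_lt _, (ZMod.natCast_eq_zero_iff _ _).1 ?_⟩
  push_cast
  rw [ZMod.natCast_zmod_val]
  field_simp
  ring

lemma unit_of_lt {a s m : ℕ} (hpa : ¬ p ∣ a) (hm : m < p) (hd : p ∣ a * m + s) {i : ℕ}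
    (h1 : i ≠ m) (h2 : i < m + p) : ‖(((a * i + s : ℕ) : ℚ_[p]))⁻¹‖ = 1 := by
  refine norm_inv_nat_of_not_dvd fun h => ?_
  have h3 := dvd_iff hpa hm hd h
  rcases lt_or_ge i p with h4 | h4
  · rw [Nat.mod_eq_of_lt h4] at h3; exact h1 h3
  · rw [Nat.mod_eq_sub_mod h4, Nat.mod_eq_of_lt (by omega)] at h3; omega

lemma harm_int {n : ℕ} (hn : n < p) : ‖rho ℚ_[p] 1 1 n‖ ≤ 1 :=
  norm_rho_le zero_le_one fun i hi =>
    (norm_inv_nat_of_not_dvd (Nat.not_dvd_of_pos_of_lt (by omega) (by omega))).le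

lemma rho_int {a s m : ℕ} (hpa : ¬ p ∣ a) (hm : m < p) (hd : p ∣ a * m + s) {j : ℕ}
    (hj : j ≤ m) : ‖rho ℚ_[p] a s j‖ ≤ 1 :=
  norm_rho_le zero_le_one fun i hi => (unit_of_lt hpa hm hd (by omega) (by omega)).le

lemma norm_le_inv_of_dvd {k : ℕ} (h : p ∣ k) : ‖(k : ℚ_[p])‖ ≤ (p:ℝ)⁻¹ := by
  obtain ⟨l, rfl⟩ := h
  rw [mul_comm, Nat.cast_mul]
  exact nnat l Padic.norm_p.le

/-- the reflection congruence -/
lemma reflect {a s m : ℕ} (hs : 0 < s) (hpa : ¬ p ∣ a) (hm : m < p) (hd : p ∣ a * m + s) :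
    ∀ j n, n + j = m →
      ‖rho ℚ_[p] 1 1 n - a * rho ℚ_[p] a s j - rho ℚ_[p] 1 1 m‖ ≤ (p:ℝ)⁻¹ := by
  intro j
  induction j with
  | zero => intro n h; simp [← h, rho]
  | succ j ih =>
    intro n h
    have h1 := ih (n + 1) (by omega)
    have h2 : ((1 * n + 1 : ℕ) : ℚ_[p]) ≠ 0 := Nat.cast_ne_zero.2 (by omega)
    have h3 : ((a * j + s : ℕ) : ℚ_[p]) ≠ 0 := Nat.cast_ne_zero.2 (by omega)
    have e : rho ℚ_[p] 1 1 n - a * rho ℚ_[p] a s (j + 1) - rho ℚ_[p] 1 1 m =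
        (rho ℚ_[p] 1 1 (n + 1) - a * rho ℚ_[p] a s j - rho ℚ_[p] 1 1 m) -
          ((a * m + s : ℕ) : ℚ_[p]) * (((1 * n + 1 : ℕ) : ℚ_[p])⁻¹ *
            ((a * j + s : ℕ) : ℚ_[p])⁻¹) := by
      have e1 : ((a * m + s : ℕ) : ℚ_[p]) =
          ((a * j + s : ℕ) : ℚ_[p]) + a * ((1 * n + 1 : ℕ) : ℚ_[p]) := by
        rw [← h]; push_cast; ring
      rw [e1]
      simp only [rho, sum_range_succ]
      field_simp
      ring
    rw [e]
    refine nsub h1 ?_
    rw [norm_mul, norm_mul, unit_of_lt hpa hm hd (by omega) (by omega),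
      norm_inv_nat_of_not_dvd (Nat.not_dvd_of_pos_of_lt (by omega) (by omega)), mul_one, mul_one]
    exact norm_le_inv_of_dvd hd

omit hp in
lemma log_le_one {T : ℕ} (hT : T < p ^ 2) : Nat.log p T ≤ 1 := by
  rcases Nat.eq_zero_or_pos T with rfl | h
  · simp
  exact Nat.lt_succ_iff.1 (Nat.log_lt_of_lt_pow h.ne' hT)

lemma pow_log_le {T : ℕ} (hT : T < p ^ 2) : (p:ℝ) ^ Nat.log p T ≤ p := by
  simpa using pow_le_pow_right₀ (one_le_p (p := p)) (log_le_one hT)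

/-- entries in the corner `n < p`, `j ≤ m` -/
lemma corner {a s m : ℕ} (hs : 0 < s) (hpa : ¬ p ∣ a) (hm : m < p) (hd : p ∣ a * m + s) (c d : ℤ)
    {N : ℕ} (hT : a * (2 * N) + s < p ^ 2) {G : ℝ} (hG : (p:ℝ)⁻¹ ≤ G)
    (hg : ‖fr ℚ_[p] c d m‖ ≤ G) (n j : Fin N) (hn : (n:ℕ) < p) (hj : (j:ℕ) ≤ m) :
    ‖mm ℚ_[p] a s c d N n j‖ ≤ G * p := by
  have hp0 : (0:ℝ) < p := lt_of_lt_of_le zero_lt_one one_le_p
  have hG1 : 1 ≤ G * p := by rwa [inv_le_iff_one_le_mul₀ hp0] at hG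
  rw [mm, mat, of_apply, div_eq_mul_inv, norm_mul]
  by_cases h : (n:ℕ) + j = m
  · refine mul_le_mul ?_ ((den_le n.2 j.2).trans (pow_log_le hT)) (norm_nonneg _)
      ((inv_nonneg.2 hp0.le).trans hG)
    have e : fr ℚ_[p] c d n - gc ℚ_[p] a s d j =
        d * (rho ℚ_[p] 1 1 n - a * rho ℚ_[p] a s j - rho ℚ_[p] 1 1 m) + fr ℚ_[p] c d m := by
      simp only [fr, gc]; ring
    rw [e]
    exact nadd (nint d ((reflect hs hpa hm hd j n h).trans hG)) hg
  · rw [← mul_add, unit_of_lt hpa hm hd h (by omega), mul_one]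
    exact (nsub (norm_fr_le c d le_rfl (harm_int hn))
      (nint d (nnat a (rho_int hpa hm hd hj)))).trans hG1

lemma prod_ite_pow (x : ℝ) (N k : ℕ) :
    ∏ n : Fin N, (if (n:ℕ) < k then 1 else x) = x ^ (N - k) := by
  rw [← Finset.prod_range (fun n => if n < k then 1 else x)]
  induction N with
  | zero => simp
  | succ N ih =>
    rw [prod_range_succ, ih]
    split_ifs with h
    · rw [mul_one]; congr 1; omega
    · rw [← pow_succ]; congr 1; omega

/-- the cost of a prime -/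
def cost (N p m : ℕ) : ℕ := min (2 * N) (2 * (N - p) + 2 * (N - (m + 1)))

/-- the bound at a prime with `p ^ 2` above the range -/
theorem det_odd {a s m : ℕ} (ha : 0 < a) (hs : 0 < s) (hpa : ¬ p ∣ a) (hm : m < p)
    (hd : p ∣ a * m + s) (c d : ℤ) {N : ℕ} (hT : a * (2 * N) + s < p ^ 2) {G : ℝ}
    (hG : (p:ℝ)⁻¹ ≤ G) (hg : ‖fr ℚ_[p] c d m‖ ≤ G) :
    ‖(mm ℚ_[p] a s c d N).det‖ ≤ (G * p) ^ N * (p:ℝ) ^ cost N p m := by
  have hp1 := one_le_p (p := p)
  have hp0 : (0:ℝ) < p := lt_of_lt_of_le zero_lt_one hp1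
  have hG1 : 1 ≤ G * p := by rwa [inv_le_iff_one_le_mul₀ hp0] at hG
  have h2 : ∀ n j, ‖mm ℚ_[p] a s c d N n j‖ ≤ (p:ℝ) ^ 2 := fun n j =>
    (entry_le ha hs c d n j).trans (pow_le_pow_right₀ hp1 (by have := log_le_one hT; omega))
  have hp2 : (1:ℝ) ≤ (p:ℝ) ^ 2 := one_le_pow₀ hp1
  rw [cost]
  rcases le_total (2 * N) (2 * (N - p) + 2 * (N - (m + 1))) with h | h
  · rw [min_eq_left h]
    have := norm_det_le (mm ℚ_[p] a s c d N) (fun _ => (p:ℝ) ^ 2) (fun _ => 1)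
      (fun _ => by positivity) (fun _ => zero_le_one) fun n j => by simpa using h2 n j
    simp only [prod_const, card_univ, Fintype.card_fin, one_pow, mul_one, ← pow_mul] at this
    exact this.trans (le_mul_of_one_le_left (by positivity) (one_le_pow₀ hG1))
  · rw [min_eq_right h]
    have := norm_det_le (mm ℚ_[p] a s c d N)
      (fun n => (G * p) * if (n:ℕ) < p then 1 else (p:ℝ) ^ 2)
      (fun j => if (j:ℕ) < m + 1 then 1 else (p:ℝ) ^ 2)
      (fun _ => by positivity) (fun _ => by positivity) fun n j => by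
        split_ifs with h3 h4 h4
        · simpa using corner hs hpa hm hd c d hT hG hg n j h3 (by omega)
        · exact (h2 n j).trans (le_mul_of_one_le_left (by positivity) (by simpa using hG1))
        · exact (h2 n j).trans (by rw [mul_one]; exact le_mul_of_one_le_left (by positivity) hG1)
        · refine (h2 n j).trans (le_mul_of_one_le_left (by positivity) ?_)
          exact one_le_mul_of_one_le_of_one_le hG1 hp2
    rw [prod_mul_distrib, prod_ite_pow, prod_ite_pow, prod_const, card_univ, Fintype.card_fin,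
      ← pow_mul, ← pow_mul, mul_assoc, ← pow_add] at this
    exact this

lemma norm_inv_exact {k : ℕ} (h0 : 0 < k) (h1 : p ∣ k) (h2 : k < p ^ 2) :
    ‖((k : ℚ_[p]))⁻¹‖ = p := by
  obtain ⟨l, rfl⟩ := h1
  have hl : ¬ p ∣ l := Nat.not_dvd_of_pos_of_lt (Nat.pos_of_mul_pos_left h0)
    (by rw [sq] at h2; exact Nat.lt_of_mul_lt_mul_left h2)
  rw [Nat.cast_mul, mul_inv, norm_mul, norm_inv_nat_of_not_dvd hl, norm_inv, Padic.norm_p]
  simp

lemma norm_add_eq {x y : ℚ_[p]} (hx : ‖x‖ = p) (hy : ‖y‖ ≤ 1) : ‖x + y‖ = p := by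
  have h1 : (1:ℝ) < p := by exact_mod_cast hp.out.one_lt
  rw [IsUltrametricDist.norm_add_eq_max_of_norm_ne_norm (by linarith), max_eq_left (by linarith), hx]

lemma rho_pole {a s m : ℕ} (hs : 0 < s) (hpa : ¬ p ∣ a) (hm : m < p) (hd : p ∣ a * m + s)
    (hT : a * m + s < p ^ 2) {j : ℕ} (h1 : m < j) (h2 : j ≤ m + p) : ‖rho ℚ_[p] a s j‖ = p := by
  rw [rho, ← add_sum_erase _ _ (mem_range.2 h1)]
  refine norm_add_eq (norm_inv_exact (by omega) hd hT)
    (IsUltrametricDist.norm_sum_le_of_forall_le_of_nonneg zero_le_one fun i hi => ?_)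
  rw [mem_erase, mem_range] at hi
  exact (unit_of_lt hpa hm hd hi.1 (by omega)).le

/-- non-vanishing -/
theorem det_ne_zero {a s m : ℕ} (ha : 0 < a) (hs : 0 < s) (hpa : ¬ p ∣ a) (hm : m < p)
    (hd : p ∣ a * m + s) (c : ℤ) {d : ℤ} (hpd : ¬ (p:ℤ) ∣ d)
    (hT : a * (2 * (m + p + 1)) + s < p ^ 2) : (mm ℚ_[p] a s c d (m + p + 1)).det ≠ 0 := by
  set N := m + p + 1 with hN
  have hp1 : (1:ℝ) < p := by exact_mod_cast hp.out.one_lt
  have hp2 := hp.out.two_le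
  have hdn : ‖(d : ℚ_[p])‖ = 1 :=
    le_antisymm (Padic.norm_int_le_one d) (not_lt.1 fun h => hpd (Padic.norm_intCast_lt_one_iff.1 h))
  have han : ‖(a : ℚ_[p])‖ = 1 :=
    Padic.norm_natCast_eq_one_iff.2 ((Nat.Prime.coprime_iff_not_dvd hp.out).2 hpa)
  have h2 : ∀ n j, ‖mm ℚ_[p] a s c d N n j‖ ≤ (p:ℝ) ^ 2 := fun n j =>
    (entry_le ha hs c d n j).trans (pow_le_pow_right₀ hp1.le (by have := log_le_one hT; omega))
  have hlow : ∀ n j : Fin N, (n:ℕ) + j < m + p → ‖mm ℚ_[p] a s c d N n j‖ ≤ p := by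
    intro n j h
    by_cases h3 : (n:ℕ) + j = m
    · simpa using corner hs hpa hm hd c d hT (G := 1) (inv_le_one_of_one_le₀ hp1.le)
        (norm_fr_le c d le_rfl (harm_int hm)) n j (by omega) (by omega)
    · rw [mm, mat, of_apply, div_eq_mul_inv, norm_mul, ← mul_add, unit_of_lt hpa hm hd h3 h, mul_one]
      exact (num_le ha hs c d n.2 j.2).trans (pow_log_le hT)
  have hdiag : ∀ n j : Fin N, (n:ℕ) + j = m + p → ‖mm ℚ_[p] a s c d N n j‖ = (p:ℝ) ^ 2 := by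
    intro n j h
    have h4 : a * (m + p) ≤ a * (2 * N) := Nat.mul_le_mul_left a (by omega)
    have h5 : a * m ≤ a * (2 * N) := Nat.mul_le_mul_left a (by omega)
    rw [mm, mat, of_apply, div_eq_mul_inv, norm_mul, ← mul_add, h,
      norm_inv_exact (by omega) (by
        rw [show a * (m + p) + s = a * m + s + a * p by ring]
        exact dvd_add hd (dvd_mul_left _ _)) (by omega), sq]
    congr 1
    rcases lt_or_ge (n:ℕ) p with h3 | h3
    · rw [sub_eq_add_neg, add_comm]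
      refine norm_add_eq ?_ (norm_fr_le c d le_rfl (harm_int h3))
      rw [norm_neg, gc, norm_mul, norm_mul, hdn, han, one_mul, one_mul]
      exact rho_pole hs hpa hm hd (by omega) (by omega) (by omega)
    · rw [fr, add_sub_assoc]
      refine norm_add_eq ?_ (nsub (Padic.norm_int_le_one c)
        (nint d (nnat a (rho_int hpa hm hd (by omega)))))
      rw [norm_mul, hdn, one_mul]
      refine rho_pole (m := p - 1) zero_lt_one hp.out.not_dvd_one (by omega) ?_ ?_ (by omega)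
        (by omega)
      · rw [one_mul, Nat.sub_add_cancel hp.out.one_le]
      · rw [one_mul, Nat.sub_add_cancel hp.out.one_le]; nlinarith
  intro h0
  rw [det_apply', ← add_sum_erase _ _ (mem_univ Fin.revPerm)] at h0
  have hA : ‖((Equiv.Perm.sign (Fin.revPerm : Equiv.Perm (Fin N)) : ℤˣ) : ℤ) *
      ∏ i, mm ℚ_[p] a s c d N (Fin.revPerm i) i‖ = ((p:ℝ) ^ 2) ^ N := by
    rw [norm_mul, norm_prod, prod_congr rfl fun i _ => hdiag (Fin.revPerm i) i (by
      rw [Fin.revPerm_apply, Fin.val_rev]; omega)]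
    rcases Int.units_eq_one_or (Equiv.Perm.sign (Fin.revPerm : Equiv.Perm (Fin N))) with h | h <;>
      simp [h]
  have hB : ‖∑ σ ∈ univ.erase (Fin.revPerm : Equiv.Perm (Fin N)),
      ((Equiv.Perm.sign σ : ℤˣ) : ℤ) * ∏ i, mm ℚ_[p] a s c d N (σ i) i‖ ≤
        p * ((p:ℝ) ^ 2) ^ (N - 1) := by
    refine IsUltrametricDist.norm_sum_le_of_forall_le_of_nonneg (by positivity) fun σ hσ => ?_
    refine nint _ ?_
    have : ∃ i, (σ i : ℕ) + i < m + p := by
      by_contra hc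
      push Not at hc
      apply (mem_erase.1 hσ).1
      have h6 : ∑ i, ((Fin.revPerm i : Fin N) : ℕ) = ∑ i, (σ i : ℕ) := by
        rw [Equiv.sum_comp Fin.revPerm (fun i : Fin N => (i:ℕ)),
          Equiv.sum_comp σ (fun i : Fin N => (i:ℕ))]
      have h7 := (sum_eq_sum_iff_of_le (fun i _ => by
        have := hc i
        rw [Fin.revPerm_apply, Fin.val_rev]; omega)).1 h6
      ext i
      exact (h7 i (mem_univ i)).symm
    obtain ⟨i, hi⟩ := this
    rw [norm_prod, ← mul_prod_erase _ _ (mem_univ i)]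
    refine mul_le_mul (hlow _ _ hi) ?_ (prod_nonneg fun _ _ => norm_nonneg _) (by positivity)
    refine (prod_le_prod (fun _ _ => norm_nonneg _) fun k _ => h2 (σ k) k).trans (le_of_eq ?_)
    rw [prod_const, card_erase_of_mem (mem_univ i), card_univ, Fintype.card_fin]
  rw [← neg_eq_of_add_eq_zero_right h0, norm_neg, hA, hN, pow_succ, Nat.add_sub_cancel,
    mul_comm (p:ℝ)] at hB
  have := le_of_mul_le_mul_left hB (by positivity)
  nlinarith

end

end Pool.Agent.NW
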